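import Pool.Agent.N295.P15.C2A

/-!
# P15-C2 (helper295): the local sums, and the evaluation of the divisor sums
-/

set_option autoImplicit false

namespace Pool.Agent.N295.P15

open Finset
open Pool.Agent.Z700 (hh fac)
open Pool.Agent.Y574.Z7 (chp chp_mul chp_one chp_self chp_nd chp_sq chp_pm jac_eq sum_local two_pt
  one_sum alt_sum dvd_fac nd4 fac_D mem_D chp_D jac_prod chp_prod)
open Pool.Agent.N969.P15

variable {n : ℕ}

/-! ### the local factors -/

theorem hh_eq (h : Ok n) {D l : ℕ} (hl : l ∈ n.primeFactors) :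
    hh n D l = ZMod.χ₄ l * (chp l n) ^ D.factorization l * chp l D := by
  have hp := pf_prime hl
  have hodd := h.podd hl
  have hsq : chp l n * chp l n = 1 := chp_sq hp h.n0
  have e1 : jacobiSym ((n / l : ℕ) : ℤ) l = chp l n := by
    unfold chp
    rw [h.fac1 hl, pow_one]
  unfold hh
  rw [jacobiSym.neg _ hodd, jacobiSym.neg _ hodd, Nat.cast_mul, jacobiSym.mul_left, e1]
  have e2 : jacobiSym ((D / l ^ D.factorization l : ℕ) : ℤ) l = chp l D := rfl
  rw [e2]
  split_ifs with h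
  · obtain ⟨k, hk⟩ := h
    rw [hk, ← two_mul, pow_mul, sq, hsq, one_pow]
    ring
  · rw [Nat.not_even_iff_odd] at h
    obtain ⟨k, hk⟩ := h
    rw [hk, pow_succ, pow_mul, sq, hsq, one_pow]
    ring

theorem fac4 {D l : ℕ} (hD : D ≠ 0) (hl : l.Prime) (h2 : l ≠ 2) :
    (4 * D).factorization l = D.factorization l := by
  rw [Nat.factorization_mul (by norm_num) hD, Finsupp.add_apply,
    Nat.factorization_eq_zero_of_not_dvd (nd4 hl h2), zero_add]

theorem chp4 {D l : ℕ} (hl : l.Prime) : chp l (4 * D) = chp l D := by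
  rw [chp_mul, show 4 = 2 * 2 from rfl, chp_mul, chp_sq hl (by norm_num), one_mul]

theorem fac_four (h : Ok n) {D l : ℕ} (hD : D ≠ 0) (hl : l.Prime) (h2 : l ≠ 2) :
    fac n (4 * D) l = fac n D l := by
  unfold fac
  split_ifs with h1
  · have h3 := (h.mem hl).2 h1
    rw [hh_eq h h3, hh_eq h h3, fac4 hD hl h2, chp4 hl]
  · rw [fac4 hD hl h2]

theorem fac_ST {S T l : ℕ} (hS : S ≠ 0) (hT : T ≠ 0) :
    (S * T).factorization l = S.factorization l + T.factorization l := by
  rw [Nat.factorization_mul hS hT, Finsupp.add_apply]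

theorem facp_eq (h : Ok n) {S T l : ℕ} (hS : S ≠ 0) (hT : T ≠ 0)
    (hl : l ∈ n.primeFactors) : fac n (S * T) l =
      1 + Ps n.primeFactors l ^ (S.factorization l + T.factorization l) *
        (ZMod.χ₄ l * (chp l S * chp l T)) := by
  unfold fac
  rw [if_pos (pf_dvd hl), hh_eq h hl, ← h.Ps_p hl, fac_ST hS hT, chp_mul]
  ring

theorem facg_eq (h : Ok n) {S T l : ℕ} (hS : S ≠ 0) (hT : T ≠ 0)
    (hp : l.Prime) (h2 : l ≠ 2) (hl : l ∉ n.primeFactors) : fac n (S * T) l =
      ∑ j ∈ range (S.factorization l + T.factorization l + 1), Ps n.primeFactors l ^ j := by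
  unfold fac
  rw [if_neg (fun h1 => hl ((h.mem hp).2 h1)), fac_ST hS hT, h.Ps_l hp h2 hl]

/-! ### the local sums -/

/-- the sum of the local weights -/
def Ls (n S T l : ℕ) : ℤ :=
  ∑ i ∈ range (S.factorization l + 1), ∑ j ∈ range (T.factorization l + 1), Wl n S T l i j

theorem Ls_two (h : Ok n) {S T : ℕ} :
    Ls n S T 2 = (∑ i ∈ range (S.factorization 2 + 1), ep2 n ^ i) *
      ∑ j ∈ range (T.factorization 2 + 1), ep2 n ^ j := by
  have h2 : (2 : ℕ) ∉ n.primeFactors := fun h1 => h.ne2 h1 rfl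
  unfold Ls Wl
  rw [Finset.sum_mul_sum]
  refine Finset.sum_congr rfl fun i _ => Finset.sum_congr rfl fun j _ => ?_
  rw [if_neg h2, if_neg (by norm_num), if_neg (by norm_num), h.Ps_two, pow_add]
  ring

theorem Ls_three (h : Ok n) {S T : ℕ} (hT3 : ¬ 3 ∣ T) :
    Ls n S T 3 = (S.factorization 3 : ℤ) := by
  have h3 : (3 : ℕ) ∉ n.primeFactors := fun h1 => h.ne3 h1 rfl
  unfold Ls
  rw [Nat.factorization_eq_zero_of_not_dvd hT3, zero_add, ← one_sum]
  refine Finset.sum_congr rfl fun i _ => ?_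
  rw [Finset.sum_range_one]
  unfold Wl
  rw [if_neg h3, if_pos rfl, if_neg (by norm_num : (3 : ℕ) ≠ 5), h.Ps_three, one_pow]
  ring

theorem Ls_five (h : Ok n) {S T : ℕ} (hS5 : ¬ 5 ∣ S) :
    Ls n S T 5 = if Odd (T.factorization 5) then -1 else 0 := by
  have h5 : (5 : ℕ) ∉ n.primeFactors := fun h1 => h.ne5 h1 rfl
  unfold Ls
  rw [Nat.factorization_eq_zero_of_not_dvd hS5, zero_add, Finset.sum_range_one, ← alt_sum]
  refine Finset.sum_congr rfl fun j _ => ?_
  unfold Wl
  rw [if_neg h5, if_pos rfl, if_neg (by norm_num : (5 : ℕ) ≠ 3), h.Ps_five, zero_add]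
  ring

theorem dvd_cn {c : ℕ} (hc : c = 1 ∨ c = 2) {l : ℕ} (hp : l.Prime) (h2 : l ≠ 2) (hd : l ∣ c * n) :
    l ∣ n := by
  rcases hc with rfl | rfl
  · rwa [one_mul] at hd
  · rcases (Nat.Prime.dvd_mul hp).1 hd with h | h
    · exact absurd ((Nat.prime_dvd_prime_iff_eq hp Nat.prime_two).1 h) h2
    · exact h

theorem one_zero (h : Ok n) {c S T : ℕ} (hc : c = 1 ∨ c = 2) (hS : S ≠ 0) (hT : T ≠ 0)
    (hST : S + T = c * n) {l : ℕ} (hp : l.Prime) (h2 : l ≠ 2) (hl : l ∉ n.primeFactors) :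
    S.factorization l = 0 ∨ T.factorization l = 0 := by
  by_contra h0
  push Not at h0
  have h1 := (dvd_fac hp hS).2 (by omega)
  have h3 := (dvd_fac hp hT).2 (by omega)
  exact hl ((h.mem hp).2 (dvd_cn hc hp h2 (hST ▸ dvd_add h1 h3)))

theorem Ls_gen (h : Ok n) {c S T : ℕ} (hc : c = 1 ∨ c = 2) (hS : S ≠ 0) (hT : T ≠ 0)
    (hST : S + T = c * n) {l : ℕ} (hp : l.Prime) (h2 : l ≠ 2) (h3 : l ≠ 3) (h5 : l ≠ 5)
    (hl : l ∉ n.primeFactors) :
    Ls n S T l = fac n (S * T) l := by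
  rw [facg_eq h hS hT hp h2 hl]
  unfold Ls Wl
  simp only [if_neg hl, if_neg h3, if_neg h5, mul_one]
  rcases one_zero h hc hS hT hST hp h2 hl with h0 | h0
  · rw [h0, zero_add, Finset.sum_range_one, zero_add]
    exact Finset.sum_congr rfl fun j _ => by rw [zero_add]
  · rw [h0, zero_add, add_zero]
    exact Finset.sum_congr rfl fun i _ => by rw [Finset.sum_range_one, add_zero]

theorem chi_sq (h : Ok n) {p : ℕ} (hp : p ∈ n.primeFactors) : ZMod.χ₄ (p : ZMod 4) * ZMod.χ₄ (p : ZMod 4) = 1 := by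
  have hodd := h.podd hp
  have h2 : p % 4 = 1 ∨ p % 4 = 3 := by
    rw [Nat.odd_iff] at hodd; omega
  rcases h2 with h2 | h2
  · rw [ZMod.χ₄_nat_one_mod_four h2]; norm_num
  · rw [ZMod.χ₄_nat_three_mod_four h2]; norm_num

theorem Ls_p (h : Ok n) {c S T : ℕ} (hS : S ≠ 0) (hT : T ≠ 0)
    (hST : S + T = c * n) {p : ℕ} (hp : p ∈ n.primeFactors) :
    Ls n S T p = (Ps n.primeFactors p ^ T.factorization p * (ZMod.χ₄ p * chp p T)) *
      (if p ∣ T then fac n (S * T) p else 1) := by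
  have hd := dvd_iff' hST hp
  have hpp := pf_prime hp
  unfold Ls Wl wq
  simp only [if_pos hp, if_neg (h.ne3 hp), if_neg (h.ne5 hp), mul_one]
  by_cases h1 : p ∣ T
  · rw [if_pos h1, facp_eq h hS hT hp]
    simp only [if_pos h1]
    have s1 := (dvd_fac hpp hS).1 (hd.2 h1)
    have t1 := (dvd_fac hpp hT).1 h1
    rw [two_pt (S.factorization p) (T.factorization p) (S.factorization p) 0 0 (T.factorization p)
      le_rfl (Nat.zero_le _) (Nat.zero_le _) le_rfl (Or.inl (by omega)) (chp p S)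
      (ZMod.χ₄ p * chp p T) (fun i j => Ps n.primeFactors p ^ (i + j))]
    simp only [add_zero, zero_add]
    have c1 := chp_sq hpp hT
    have c2 : Ps n.primeFactors p ^ T.factorization p * Ps n.primeFactors p ^ T.factorization p = 1 := by
      rw [← mul_pow]
      rcases Ps_pm (fun q hq => pf_prime hq) hpp.ne_zero with h | h <;> rw [h] <;> norm_num
    have c3 := chi_sq h hp
    rw [pow_add]
    generalize Ps n.primeFactors p ^ T.factorization p = A at *
    generalize Ps n.primeFactors p ^ S.factorization p = B at *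
    generalize chp p T = t at *
    generalize chp p S = s at *
    generalize ZMod.χ₄ (p : ZMod 4) = κ at *
    linear_combination (-(B * s * κ * κ * t * t)) * c2 - (B * s * t * t) * c3 - (B * s) * c1
  · rw [if_neg h1]
    simp only [if_neg h1]
    rw [Nat.factorization_eq_zero_of_not_dvd h1, Nat.factorization_eq_zero_of_not_dvd (fun h2 => h1 (hd.1 h2))]
    simp only [zero_add, Finset.sum_range_one, pow_zero, one_mul, mul_one]

/-! ### the assembly -/

/-- the primes apart from `2`, `3` and `5` -/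
def Q' (n S T : ℕ) : Finset ℕ := (((QQ n S T).erase 2).erase 3).erase 5

theorem mem_Q' {S T l : ℕ} (h : l ∈ Q' n S T) :
    l.Prime ∧ l ≠ 2 ∧ l ≠ 3 ∧ l ≠ 5 ∧ (l ∉ n.primeFactors → l ∈ (S * T).primeFactors) := by
  unfold Q' at h
  have h1 := Finset.mem_erase.1 h
  have h2 := Finset.mem_erase.1 h1.2
  have h3 := Finset.mem_erase.1 h2.2
  refine ⟨QQ_prime l h3.2, h3.1, h2.1, h1.1, fun h3' => ?_⟩
  have h4 := h3.2
  unfold QQ at h4
  rcases Finset.mem_insert.1 h4 with h4 | h4
  · exact absurd h4 h3.1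
  rcases Finset.mem_insert.1 h4 with h4 | h4
  · exact absurd h4 h2.1
  rcases Finset.mem_insert.1 h4 with h4 | h4
  · exact absurd h4 h1.1
  rcases Finset.mem_union.1 h4 with h4 | h4
  · exact absurd h4 h3'
  · exact h4

theorem P_sub_Q' (h : Ok n) {S T : ℕ} : n.primeFactors ⊆ Q' n S T := fun _ hp =>
  Finset.mem_erase.2 ⟨h.ne5 hp, Finset.mem_erase.2 ⟨h.ne3 hp, Finset.mem_erase.2 ⟨h.ne2 hp,
    sub_QQ hp⟩⟩⟩

/-- the local factor or one -/
def Ff (n S T l : ℕ) : ℤ :=
  if l ∈ (S * T).primeFactors then fac n (S * T) l else 1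

theorem mem_ST {S T l : ℕ} (hS : S ≠ 0) (hT : T ≠ 0) (hl : l.Prime) :
    l ∈ (S * T).primeFactors ↔ l ∣ S ∨ l ∣ T := by
  rw [Nat.mem_primeFactors, Nat.Prime.dvd_mul hl]
  constructor
  · rintro ⟨_, h, _⟩
    exact h
  · exact fun h => ⟨hl, h, mul_ne_zero hS hT⟩

/-- the local sums away from `2`, `3` and `5` -/
theorem Ls_Q' (h : Ok n) {c S T : ℕ} (hc : c = 1 ∨ c = 2) (hS : S ≠ 0) (hT : T ≠ 0)
    (hST : S + T = c * n) {l : ℕ} (hl : l ∈ Q' n S T) :
    Ls n S T l = (if l ∈ n.primeFactors then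
      Ps n.primeFactors l ^ T.factorization l * (ZMod.χ₄ l * chp l T) else 1) * Ff n S T l := by
  obtain ⟨hp, h2, h3, h5, hm⟩ := mem_Q' hl
  have hD := mem_ST hS hT hp
  by_cases hlP : l ∈ n.primeFactors
  · have hd := dvd_iff' hST hlP
    have hD' : l ∈ (S * T).primeFactors ↔ l ∣ T := by rw [hD, hd, or_self]
    rw [if_pos hlP, Ls_p h hS hT hST hlP]
    unfold Ff
    simp only [hD']
  · rw [if_neg hlP, one_mul, Ls_gen h hc hS hT hST hp h2 h3 h5 hlP]
    unfold Ff
    rw [if_pos (hm hlP)]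

/-- the product of the local factors -/
theorem prod_Ff {S T : ℕ} :
    ∏ l ∈ Q' n S T, Ff n S T l =
      ∏ l ∈ (((S * T).primeFactors.erase 2).erase 3).erase 5, fac n (S * T) l := by
  classical
  unfold Ff
  rw [Finset.prod_ite_mem]
  refine Finset.prod_congr ?_ fun _ _ => rfl
  ext l
  unfold Q'
  simp only [Finset.mem_inter, Finset.mem_erase]
  constructor
  · rintro ⟨⟨h1, h2, h3, _⟩, h5⟩
    exact ⟨h1, h2, h3, h5⟩
  · rintro ⟨h1, h2, h3, h5⟩
    exact ⟨⟨h1, h2, h3, pf_QQ h5⟩, h5⟩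

theorem alt_zero {s : ℕ} (h : ∑ j ∈ range (s + 1), (-1 : ℤ) ^ j ≠ 0) : Even s := by
  rcases Nat.even_or_odd s with h7 | h7
  · exact h7
  · exfalso
    apply h
    obtain ⟨k, hk⟩ := h7
    rw [hk]
    have : ∀ k : ℕ, ∑ j ∈ range (2 * k + 1 + 1), (-1 : ℤ) ^ j = 0 := by
      intro k
      induction k with
      | zero => simp [Finset.sum_range_succ]
      | succ k ih =>
        rw [show 2 * (k + 1) + 1 + 1 = (2 * k + 1 + 1) + 1 + 1 by ring, Finset.sum_range_succ,
          Finset.sum_range_succ, ih, pow_succ (-1 : ℤ) (2 * k + 1 + 1)]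
        ring
    exact this k

/-- the sign -/
theorem sign_eq (h : Ok n) {c S T : ℕ} (hc : c = 1 ∨ c = 2) (hS : S ≠ 0) (hT : T ≠ 0)
    (hST : S + T = c * n) (hodd : Odd (T.factorization 5)) (h2 : Ls n S T 2 ≠ 0)
    (hF : ∀ l ∈ Q' n S T, Ff n S T l ≠ 0) :
    ∏ l ∈ n.primeFactors, (Ps n.primeFactors l ^ T.factorization l * (ZMod.χ₄ l * chp l T)) = 1 := by
  classical
  have hsub : T.primeFactors ⊆ QQ n S T :=
    (Nat.primeFactors_mono (dvd_mul_left T S) (mul_ne_zero hS hT)).trans pf_QQ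
  have e2 : Ps n.primeFactors T = -∏ l ∈ n.primeFactors, Ps n.primeFactors l ^ T.factorization l := by
    have e5 : Ps n.primeFactors 2 ^ T.factorization 2 = 1 := by
      rw [h.Ps_two]
      have h3 : ep2 n = 1 ∨ ep2 n = -1 := by unfold ep2; split_ifs <;> simp
      rcases h3 with h3 | h3
      · rw [h3, one_pow]
      · rw [Ls_two h, h3] at h2
        rw [h3]
        exact (alt_zero (right_ne_zero_of_mul h2)).neg_one_pow
    rw [Ps_fac n.primeFactors (QQ n S T) T hT hsub,
      ← Finset.mul_prod_erase _ _ (mem_QQ2 (n := n) (S := S) (T := T)), e5,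
      ← Finset.mul_prod_erase _ _ (Finset.mem_erase.2 ⟨by norm_num, mem_QQ3 (n := n) (S := S) (T := T)⟩ :
        3 ∈ (QQ n S T).erase 2), h.Ps_three, one_pow, one_mul, one_mul,
      ← Finset.mul_prod_erase _ _ (Finset.mem_erase.2 ⟨by norm_num, Finset.mem_erase.2
        ⟨by norm_num, mem_QQ5 (n := n) (S := S) (T := T)⟩⟩ :
        5 ∈ ((QQ n S T).erase 2).erase 3), h.Ps_five, hodd.neg_one_pow, neg_one_mul]
    congr 1
    symm
    refine Finset.prod_subset (P_sub_Q' h) fun l hl hlP => ?_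
    obtain ⟨hp, h2, h3, h5, hm⟩ := mem_Q' hl
    have h6 := hF l hl
    unfold Ff at h6
    rw [if_pos (hm hlP), facg_eq h hS hT hp h2 hlP] at h6
    rcases one_zero h hc hS hT hST hp h2 hlP with h0 | h0
    · rw [h0, zero_add] at h6
      rcases Ps_pm (fun q hq => pf_prime hq) hp.ne_zero (P := n.primeFactors) with h7 | h7
      · rw [h7, one_pow]
      · rw [h7] at h6 ⊢
        exact (alt_zero h6).neg_one_pow
    · rw [h0, pow_zero]
  have c2 : (∏ l ∈ n.primeFactors, Ps n.primeFactors l ^ T.factorization l) *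
      (∏ l ∈ n.primeFactors, Ps n.primeFactors l ^ T.factorization l) = 1 := by
    rw [← Finset.prod_mul_distrib]
    refine Finset.prod_eq_one fun l hl => ?_
    rw [← mul_pow]
    rcases Ps_pm (fun q hq => pf_prime hq) (pf_prime hl).ne_zero (P := n.primeFactors) with h | h <;>
      rw [h] <;> norm_num
  have c3 : ∏ l ∈ n.primeFactors, ZMod.χ₄ (l : ZMod 4) = -1 := by
    rw [← map_prod, ← Nat.cast_prod, h.prod]
    exact ZMod.χ₄_nat_three_mod_four h.m4
  rw [Finset.prod_mul_distrib, Finset.prod_mul_distrib, c3]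
  have e3 : ∏ l ∈ n.primeFactors, chp l T = Ps n.primeFactors T := rfl
  rw [e3, e2]
  linear_combination c2

/-- the part of the local densities away from `2` -/
def R0 (n D : ℕ) : ℤ := (D.factorization 3 : ℤ) *
  (if Odd (D.factorization 5) then ∏ l ∈ ((D.primeFactors.erase 2).erase 3).erase 5, fac n D l else 0)

/-- the evaluation in product form -/
theorem WW_val (h : Ok n) {c S T : ℕ} (hc : c = 1 ∨ c = 2) (hS : S ≠ 0) (hT : T ≠ 0)
    (hST : S + T = c * n) (hS3 : 3 ∣ S) (hT5 : 5 ∣ T) :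
    WW n S T = - (((∑ i ∈ range (S.factorization 2 + 1), ep2 n ^ i) *
      ∑ j ∈ range (T.factorization 2 + 1), ep2 n ^ j) * R0 n (S * T)) := by
  classical
  unfold R0
  have hT3 : ¬ 3 ∣ T := by
    intro h1
    exact h.nd3 (dvd_cn hc Nat.prime_three (by norm_num) (hST ▸ dvd_add hS3 h1))
  have hS5 : ¬ 5 ∣ S := by
    intro h1
    exact h.nd5 (dvd_cn hc (by norm_num) (by norm_num) (hST ▸ dvd_add h1 hT5))
  have e0 : ∀ l, ∑ i ∈ range (S.factorization l + 1), ∑ j ∈ range (T.factorization l + 1), Wl n S T l i j =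
      Ls n S T l := fun l => rfl
  rw [WW_eq h hS hT hST]
  simp only [e0]
  rw [← Finset.mul_prod_erase _ _ (mem_QQ2 (n := n) (S := S) (T := T)),
    ← Finset.mul_prod_erase _ _ (Finset.mem_erase.2 ⟨by norm_num, mem_QQ3 (n := n) (S := S) (T := T)⟩ :
        3 ∈ (QQ n S T).erase 2), Ls_three h hT3,
    ← Finset.mul_prod_erase _ _ (Finset.mem_erase.2 ⟨by norm_num, Finset.mem_erase.2
        ⟨by norm_num, mem_QQ5 (n := n) (S := S) (T := T)⟩⟩ :
        5 ∈ ((QQ n S T).erase 2).erase 3), Ls_five h hS5]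
  have e1 : ∏ l ∈ (((QQ n S T).erase 2).erase 3).erase 5, Ls n S T l =
      (∏ l ∈ n.primeFactors, (Ps n.primeFactors l ^ T.factorization l * (ZMod.χ₄ l * chp l T))) *
        ∏ l ∈ Q' n S T, Ff n S T l := by
    have e2 : (((QQ n S T).erase 2).erase 3).erase 5 = Q' n S T := rfl
    rw [e2, Finset.prod_congr rfl fun l (hl : l ∈ Q' n S T) => Ls_Q' h hc hS hT hST hl,
      Finset.prod_mul_distrib, Finset.prod_ite_mem, Finset.inter_eq_right.2 (P_sub_Q' h)]
  rw [e1]
  have h3D : (S * T).factorization 3 = S.factorization 3 := by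
    rw [fac_ST hS hT, Nat.factorization_eq_zero_of_not_dvd hT3, add_zero]
  have h5D : (S * T).factorization 5 = T.factorization 5 := by
    rw [fac_ST hS hT, Nat.factorization_eq_zero_of_not_dvd hS5, zero_add]
  rw [← prod_Ff, h3D, h5D, ← Ls_two h]
  by_cases hodd : Odd (T.factorization 5)
  · rw [if_pos hodd, if_pos hodd]
    by_cases hF : ∀ l ∈ Q' n S T, Ff n S T l ≠ 0
    · by_cases h2 : Ls n S T 2 = 0
      · rw [h2]; ring
      · rw [sign_eq h hc hS hT hST hodd h2 hF]
        ring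
    · push Not at hF
      obtain ⟨l, hl, hl0⟩ := hF
      rw [Finset.prod_eq_zero hl hl0]
      ring
  · rw [if_neg hodd, if_neg hodd]
    ring

/-! ### the comparison with the local densities -/

theorem pf_four {D : ℕ} (hD : D ≠ 0) : ((4 * D).primeFactors.erase 2) = D.primeFactors.erase 2 := by
  ext l
  simp only [Finset.mem_erase, Nat.mem_primeFactors]
  constructor
  · rintro ⟨h1, h2, h3, _⟩
    refine ⟨h1, h2, ?_, hD⟩
    rcases (Nat.Prime.dvd_mul h2).1 h3 with h4 | h4
    · exact absurd h4 (nd4 h2 h1)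
    · exact h4
  · rintro ⟨h1, h2, h3, _⟩
    exact ⟨h1, h2, h3.mul_left 4, mul_ne_zero (by norm_num) hD⟩

theorem loc3_eq {D : ℕ} : loc3 n D = tw n D * R0 n D := by
  unfold loc3 lrest R0
  split_ifs <;> ring

theorem R0_four (h : Ok n) {D : ℕ} (hD : D ≠ 0) : R0 n (4 * D) = R0 n D := by
  unfold R0
  rw [fac4 hD Nat.prime_three (by norm_num), fac4 hD (by norm_num : Nat.Prime 5) (by norm_num),
    pf_four hD]
  congr 1
  have e : ∏ l ∈ ((D.primeFactors.erase 2).erase 3).erase 5, fac n (4 * D) l =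
      ∏ l ∈ ((D.primeFactors.erase 2).erase 3).erase 5, fac n D l := by
    refine Finset.prod_congr rfl fun l hl => ?_
    have h1 := Finset.mem_erase.1 (Finset.mem_of_mem_erase (Finset.mem_of_mem_erase hl))
    exact fac_four h hD (Nat.prime_of_mem_primeFactors h1.2) h1.1
  rw [e]

theorem ep_pow (n : ℕ) : (if n % 8 = 7 then (1 : ℤ) else -1) = ep2 n := rfl

theorem tw_eq {D : ℕ} : tw n D = ∑ j ∈ range (D.factorization 2 - 1), ep2 n ^ j := rfl

theorem fac42 {D : ℕ} (hD : D ≠ 0) : (4 * D).factorization 2 = D.factorization 2 + 2 := by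
  have h4 : (4 : ℕ).factorization 2 = 2 := by
    rw [show (4 : ℕ) = 2 ^ 2 from rfl, Nat.prime_two.factorization_pow, Finsupp.single_eq_same]
  rw [Nat.factorization_mul (by norm_num) hD, Finsupp.add_apply, h4]
  ring

/-- determinant `n` -/
theorem t_C2A : S_C2A := by
  intro n hn T hT0 hTn hT5 hS3
  have h := ok_of hn
  obtain ⟨S, hSdef⟩ : ∃ S, S = n - T := ⟨_, rfl⟩
  rw [← hSdef] at hS3 ⊢
  have hST : S + T = 1 * n := by omega
  have hS : S ≠ 0 := by omega
  have hT : T ≠ 0 := by omega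
  have hST0 := mul_ne_zero hS hT
  rw [WW_val h (Or.inl rfl) hS hT hST hS3 hT5, mul_assoc 4 S T, loc3_eq, R0_four h hST0, tw_eq,
    fac42 hST0, fac_ST (l := 2) hS hT]
  have e1 : (∑ i ∈ range (S.factorization 2 + 1), ep2 n ^ i) *
      ∑ j ∈ range (T.factorization 2 + 1), ep2 n ^ j =
      ∑ j ∈ range (S.factorization 2 + T.factorization 2 + 2 - 1), ep2 n ^ j := by
    have h1 : S.factorization 2 = 0 ∨ T.factorization 2 = 0 := by
      by_contra h0
      push Not at h0
      have h1 := (dvd_fac Nat.prime_two hS).2 (by omega)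
      have h3 := (dvd_fac Nat.prime_two hT).2 (by omega)
      exact h.nd2 (by have := dvd_add h1 h3; rwa [hST, one_mul] at this)
    rcases h1 with h1 | h1
    · rw [h1, zero_add, Finset.sum_range_one, pow_zero, one_mul, zero_add]
      rfl
    · rw [h1, zero_add, Finset.sum_range_one, pow_zero, mul_one, add_zero]
      rfl
  rw [e1]

/-- determinant `2 n` -/
theorem t_C2B : S_C2B := by
  intro n hn T hT0 hTn hT5 hS3
  have h := ok_of hn
  obtain ⟨S, hSdef⟩ : ∃ S, S = 2 * n - T := ⟨_, rfl⟩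
  rw [← hSdef] at hS3 ⊢
  have hST : S + T = 2 * n := by omega
  have hS : S ≠ 0 := by omega
  have hT : T ≠ 0 := by omega
  have hST0 := mul_ne_zero hS hT
  rw [WW_val h (Or.inr rfl) hS hT hST hS3 hT5, mul_assoc 4 S T, loc3_eq, loc3_eq, R0_four h hST0, tw_eq,
    tw_eq, fac42 hST0, fac_ST (l := 2) hS hT]
  have e1 : (∑ i ∈ range (S.factorization 2 + 1), ep2 n ^ i) *
      ∑ j ∈ range (T.factorization 2 + 1), ep2 n ^ j =
      ∑ j ∈ range (S.factorization 2 + T.factorization 2 + 2 - 1), ep2 n ^ j +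
      if 2 ∣ T then ep2 n * ∑ j ∈ range (S.factorization 2 + T.factorization 2 - 1), ep2 n ^ j else 0 := by
    have hodd := h.odd
    rw [Nat.odd_iff] at hodd
    by_cases h2 : 2 ∣ T
    · rw [if_pos h2]
      have hS2 : 2 ∣ S := by omega
      -- one of them is `2 mod 4`
      have key : ∀ t : ℕ, (∑ i ∈ range (1 + 1), ep2 n ^ i) * ∑ j ∈ range (t + 1), ep2 n ^ j =
          ∑ j ∈ range (t + 2), ep2 n ^ j + ep2 n * ∑ j ∈ range t, ep2 n ^ j := by
        intro t
        have e3 : ∑ i ∈ range (1 + 1), ep2 n ^ i = 1 + ep2 n := by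
          simp [Finset.sum_range_succ]
        have e4 : ∑ j ∈ range (t + 2), ep2 n ^ j = ∑ j ∈ range (t + 1), ep2 n ^ j + ep2 n ^ (t + 1) :=
          Finset.sum_range_succ _ _
        have e5 : ∑ j ∈ range (t + 1), ep2 n ^ j = ∑ j ∈ range t, ep2 n ^ j + ep2 n ^ t :=
          Finset.sum_range_succ _ _
        rw [e3, e4, e5, pow_succ]
        ring
      have h1 : S.factorization 2 = 1 ∨ T.factorization 2 = 1 := by
        have s1 := (dvd_fac Nat.prime_two hS).1 hS2
        have t1 := (dvd_fac Nat.prime_two hT).1 h2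
        by_contra h0
        push Not at h0
        have h3 : 2 ^ 2 ∣ S := (Nat.prime_two.pow_dvd_iff_le_factorization hS).2 (by omega)
        have h4 : 2 ^ 2 ∣ T := (Nat.prime_two.pow_dvd_iff_le_factorization hT).2 (by omega)
        have h5 := dvd_add h3 h4
        rw [hST] at h5
        omega
      rcases h1 with h1 | h1
      · rw [h1, key]
        have a1 : 1 + T.factorization 2 + 2 - 1 = T.factorization 2 + 2 := by omega
        have a2 : 1 + T.factorization 2 - 1 = T.factorization 2 := by omega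
        rw [a1, a2]
      · rw [h1, mul_comm, key]
        have a1 : S.factorization 2 + 1 + 2 - 1 = S.factorization 2 + 2 := by omega
        have a2 : S.factorization 2 + 1 - 1 = S.factorization 2 := by omega
        rw [a1, a2]
    · rw [if_neg h2]
      have hS2 : ¬ 2 ∣ S := by omega
      rw [Nat.factorization_eq_zero_of_not_dvd h2, Nat.factorization_eq_zero_of_not_dvd hS2]
      simp
  rw [e1]
  split_ifs <;> ring

end Pool.Agent.N295.P15
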