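import Pool.Agent.N295.P15.C2EA

/-!
# P15-C2E (helper295): even discriminants: the local sums, and the evaluation of the divisor sums
-/

set_option autoImplicit false

namespace Pool.Agent.N295.P15.E

open Finset
open Pool.Agent.Z700 (hh fac)
open Pool.Agent.Y574.Z7 (chp chp_mul chp_one chp_self chp_nd chp_sq chp_pm jac_eq sum_local two_pt
  one_sum alt_sum dvd_fac nd4 fac_D mem_D chp_D jac_prod chp_prod)
open Pool.Agent.N969.P15
open Pool.Agent.N295.P15 (QQ mem_QQ2 mem_QQ3 mem_QQ5 sub_QQ pf_QQ QQ_prime dvd_iff' Q' mem_Q' Ff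
  mem_ST prod_Ff alt_zero dvd_cn fac4 chp4 fac_ST R0 pf_four)

variable {n : ℕ}

/-! ### the local weights -/

/-- the local weight at a prime of `n` -/
def wq (n S T q i j : ℕ) : ℤ :=
  if q ∣ T then (if i = S.factorization q ∧ j = 0 then cq n q S
      else if i = 0 ∧ j = T.factorization q then kq n q * cq n q T else 0)
  else kq n q * cq n q T

/-- the summand -/
def pq (n p a a' Y X : ℕ) : ℤ := if p = 2 then psp2 n a a' Y X else psp p a a' Y X

theorem psp2_eq (n a a' Y X : ℕ) : psp2 n a a' Y X =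
    if ¬ 2 ∣ a then c2 n (-1) * (if 2 ∣ a * X then 0 else oc n (a * X))
    else if ¬ 2 ∣ a' then (if 2 ∣ a' * Y then 0 else oc n (a' * Y)) else 0 := by
  unfold psp2
  rw [c2_neg, c2_eq]
  have e1 : (a % 2 = 1) ↔ ¬ 2 ∣ a := by omega
  have e2 : (a' % 2 = 1) ↔ ¬ 2 ∣ a' := by omega
  simp only [e1, e2]

theorem pq_eq {p S T a a' : ℕ} (hp : p.Prime) (hS : S ≠ 0) (hT : T ≠ 0)
    (hd : p ∣ S ↔ p ∣ T) (ha : a ∣ S) (ha' : a' ∣ T) :
    pq n p a a' (S / a) (T / a') =
      cq n p a * cq n p a' * wq n S T p (a.factorization p) (a'.factorization p) := by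
  by_cases h2 : p = 2
  · subst h2
    obtain ⟨Y, rfl⟩ := ha
    obtain ⟨X, rfl⟩ := ha'
    have a0 : a ≠ 0 := left_ne_zero_of_mul hS
    have Y0 : Y ≠ 0 := right_ne_zero_of_mul hS
    have b0 : a' ≠ 0 := left_ne_zero_of_mul hT
    have X0 : X ≠ 0 := right_ne_zero_of_mul hT
    rw [Nat.mul_div_cancel_left _ (Nat.pos_of_ne_zero a0), Nat.mul_div_cancel_left _ (Nat.pos_of_ne_zero b0)]
    rw [dvd_fac hp hS, dvd_fac hp hT, Nat.factorization_mul a0 Y0, Nat.factorization_mul b0 X0,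
      Finsupp.add_apply, Finsupp.add_apply] at hd
    unfold pq wq
    rw [if_pos rfl, psp2_eq]
    simp only [cq_two, kq, if_true]
    simp only [dvd_fac hp a0, dvd_fac hp b0, dvd_fac hp (mul_ne_zero b0 Y0),
      dvd_fac hp (mul_ne_zero a0 X0), dvd_fac hp hT, Nat.factorization_mul a0 Y0, Nat.factorization_mul b0 X0,
      Nat.factorization_mul b0 Y0, Nat.factorization_mul a0 X0, Finsupp.add_apply, oc_mul]
    have s1 := oc_sq (n := n) a0
    have s2 := oc_sq (n := n) b0
    generalize a.factorization 2 = i at *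
    generalize Y.factorization 2 = y at *
    generalize a'.factorization 2 = j at *
    generalize X.factorization 2 = x at *
    generalize oc n a = α at *
    generalize oc n a' = α' at *
    generalize oc n Y = υ at *
    generalize oc n X = ξ at *
    generalize c2 n (-1) = κ at *
    split_ifs
    all_goals first
      | (exfalso; omega)
      | (linear_combination (-(α' * υ)) * s1)
      | (linear_combination (-(κ * α * ξ)) * s2)
      | ring1
  · have h3 := Pool.Agent.N295.P15.psp_eq hp (hp.odd_of_ne_two h2) hS hT hd ha ha'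
    unfold pq wq
    rw [if_neg h2, h3]
    unfold Pool.Agent.N295.P15.wq
    simp only [cq_odd h2, kq, if_neg h2]

/-- the local weights -/
def Wl (n S T l i j : ℕ) : ℤ :=
  Ps n l ^ (i + j) * (if l ∈ n.primeFactors then wq n S T l i j else 1) *
    (if l = 3 then (if 1 ≤ i then 1 else 0) else 1) * (if l = 5 then (if 1 ≤ j then 1 else 0) else 1)

theorem Ok.prod_pq (h : Ok n) (a a' Y X : ℕ) :
    psp2 n a a' Y X * ∏ p ∈ n.primeFactors.erase 2, psp p a a' Y X =
      ∏ p ∈ n.primeFactors, pq n p a a' Y X := by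
  rw [← Finset.mul_prod_erase _ _ h.mem2]
  congr 1
  exact Finset.prod_congr rfl fun q hq => (if_neg (Finset.ne_of_mem_erase hq)).symm

theorem term_eq (h : Ok n) {c S T : ℕ} (hS : S ≠ 0) (hT : T ≠ 0)
    (hST : S + T = c * n) {a a' : ℕ} (ha : a ∣ S) (ha' : a' ∣ T) :
    (if 3 ∣ a then (if 5 ∣ a' then
      psp2 n a a' (S / a) (T / a') *
        ∏ p ∈ n.primeFactors.erase 2, psp p a a' (S / a) (T / a') else 0) else 0) =
      ∏ l ∈ QQ n S T, Wl n S T l (a.factorization l) (a'.factorization l) := by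
  classical
  have a0 : a ≠ 0 := by rintro rfl; exact hS (zero_dvd_iff.1 ha)
  have b0 : a' ≠ 0 := by rintro rfl; exact hT (zero_dvd_iff.1 ha')
  have hsa : a.primeFactors ⊆ QQ n S T :=
    (Nat.primeFactors_mono (ha.mul_right T) (mul_ne_zero hS hT)).trans pf_QQ
  have hsb : a'.primeFactors ⊆ QQ n S T :=
    (Nat.primeFactors_mono (ha'.mul_left S) (mul_ne_zero hS hT)).trans pf_QQ
  rw [h.prod_pq]
  unfold Wl
  rw [Finset.prod_mul_distrib, Finset.prod_mul_distrib, Finset.prod_mul_distrib]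
  have e1 : ∏ l ∈ QQ n S T, Ps n l ^ (a.factorization l + a'.factorization l) =
      Ps n a * Ps n a' := by
    rw [Ps_fac n (QQ n S T) a a0 hsa, Ps_fac n (QQ n S T) a' b0 hsb,
      ← Finset.prod_mul_distrib]
    exact Finset.prod_congr rfl fun l _ => pow_add _ _ _
  have e2 : ∏ l ∈ QQ n S T, (if l ∈ n.primeFactors then
      wq n S T l (a.factorization l) (a'.factorization l) else 1) =
      ∏ l ∈ n.primeFactors, wq n S T l (a.factorization l) (a'.factorization l) := by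
    rw [Finset.prod_ite_mem, Finset.inter_eq_right.2 sub_QQ]
  have e3 : ∏ l ∈ QQ n S T, (if l = 3 then (if 1 ≤ a.factorization l then (1 : ℤ) else 0) else 1) =
      if 3 ∣ a then 1 else 0 := by
    rw [Finset.prod_ite_eq' (QQ n S T) 3 (fun l => if 1 ≤ a.factorization l then (1 : ℤ) else 0),
      if_pos mem_QQ3]
    simp only [dvd_fac Nat.prime_three a0]
  have e4 : ∏ l ∈ QQ n S T, (if l = 5 then (if 1 ≤ a'.factorization l then (1 : ℤ) else 0) else 1) =
      if 5 ∣ a' then 1 else 0 := by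
    rw [Finset.prod_ite_eq' (QQ n S T) 5 (fun l => if 1 ≤ a'.factorization l then (1 : ℤ) else 0),
      if_pos mem_QQ5]
    simp only [dvd_fac (by norm_num : Nat.Prime 5) b0]
  rw [e1, e2, e3, e4]
  have e5 : ∏ p ∈ n.primeFactors, pq n p a a' (S / a) (T / a') =
      Ps n a * Ps n a' *
        ∏ l ∈ n.primeFactors, wq n S T l (a.factorization l) (a'.factorization l) := by
    unfold Ps
    rw [← Finset.prod_mul_distrib, ← Finset.prod_mul_distrib]
    exact Finset.prod_congr rfl fun p hp => pq_eq (pf_prime hp) hS hT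
      (dvd_iff' hST hp) ha ha'
  rw [e5]
  split_ifs <;> simp

theorem WW_eq (h : Ok n) {c S T : ℕ} (hS : S ≠ 0) (hT : T ≠ 0)
    (hST : S + T = c * n) :
    WWe n S T = ∏ l ∈ QQ n S T, ∑ i ∈ range (S.factorization l + 1),
      ∑ j ∈ range (T.factorization l + 1), Wl n S T l i j := by
  rw [← sum_local (Wl n S T) (QQ n S T) QQ_prime S T hS hT
    (fun l hl hd => pf_QQ (Nat.mem_primeFactors.2 ⟨hl, hd.mul_right T, mul_ne_zero hS hT⟩))
    (fun l hl hd => pf_QQ (Nat.mem_primeFactors.2 ⟨hl, hd.mul_left S, mul_ne_zero hS hT⟩))]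
  unfold WWe
  rw [Finset.sum_filter]
  refine Finset.sum_congr rfl fun a ha => ?_
  rw [Finset.sum_filter]
  have ha1 := Nat.dvd_of_mem_divisors ha
  have h1 : ∀ a' ∈ T.divisors, ∏ l ∈ QQ n S T, Wl n S T l (a.factorization l) (a'.factorization l) =
      (if 3 ∣ a then (if 5 ∣ a' then
      psp2 n a a' (S / a) (T / a') *
        ∏ p ∈ n.primeFactors.erase 2, psp p a a' (S / a) (T / a') else 0) else 0) :=
    fun a' ha' => (term_eq h hS hT hST ha1 (Nat.dvd_of_mem_divisors ha')).symm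
  rw [Finset.sum_congr rfl h1]
  by_cases h2 : 3 ∣ a
  · simp only [if_pos h2]
  · simp only [if_neg h2, Finset.sum_const_zero]

/-! ### the local factors -/

theorem hh_eq (h : Ok n) {D l : ℕ} (hl : l ∈ n.primeFactors.erase 2) :
    hh n D l = ZMod.χ₄ l * (chp l n) ^ D.factorization l * chp l D := by
  have hp := pf_prime (Finset.mem_of_mem_erase hl)
  have hodd := podd hl
  have hsq : chp l n * chp l n = 1 := chp_sq hp h.n0
  have e1 : jacobiSym ((n / l : ℕ) : ℤ) l = chp l n := by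
    unfold chp
    rw [h.fac1 hl, pow_one]
  unfold hh
  rw [jacobiSym.neg _ hodd, jacobiSym.neg _ hodd, Nat.cast_mul, jacobiSym.mul_left, e1]
  have e2 : jacobiSym ((D / l ^ D.factorization l : ℕ) : ℤ) l = chp l D := rfl
  rw [e2]
  split_ifs with h
  · obtain ⟨k, hk⟩ := h
    rw [hk, ← two_mul, pow_mul, sq, hsq, one_pow]
    ring
  · rw [Nat.not_even_iff_odd] at h
    obtain ⟨k, hk⟩ := h
    rw [hk, pow_succ, pow_mul, sq, hsq, one_pow]
    ring

theorem mem_er (h : Ok n) {l : ℕ} (hl : l.Prime) (h2 : l ≠ 2) (hd : l ∣ n) :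
    l ∈ n.primeFactors.erase 2 := Finset.mem_erase.2 ⟨h2, (h.mem hl).2 hd⟩

theorem fac_four (h : Ok n) {D l : ℕ} (hD : D ≠ 0) (hl : l.Prime) (h2 : l ≠ 2) :
    fac n (4 * D) l = fac n D l := by
  unfold fac
  split_ifs with h1
  · have h3 := mem_er h hl h2 h1
    rw [hh_eq h h3, hh_eq h h3, fac4 hD hl h2, chp4 hl]
  · rw [fac4 hD hl h2]

theorem facp_eq (h : Ok n) {S T l : ℕ} (hS : S ≠ 0) (hT : T ≠ 0)
    (hl : l ∈ n.primeFactors.erase 2) : fac n (S * T) l =
      1 + Ps n l ^ (S.factorization l + T.factorization l) *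
        (ZMod.χ₄ l * (chp l S * chp l T)) := by
  unfold fac
  rw [if_pos (pf_dvd (Finset.mem_of_mem_erase hl)), hh_eq h hl, ← h.Ps_p hl, fac_ST hS hT, chp_mul]
  ring

theorem facg_eq (h : Ok n) {S T l : ℕ} (hS : S ≠ 0) (hT : T ≠ 0)
    (hp : l.Prime) (hl : l ∉ n.primeFactors) : fac n (S * T) l =
      ∑ j ∈ range (S.factorization l + T.factorization l + 1), Ps n l ^ j := by
  unfold fac
  rw [if_neg (fun h1 => hl ((h.mem hp).2 h1)), fac_ST hS hT, h.Ps_l hp hl]

/-! ### the local sums -/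

/-- the sum of the local weights -/
def Ls (n S T l : ℕ) : ℤ :=
  ∑ i ∈ range (S.factorization l + 1), ∑ j ∈ range (T.factorization l + 1), Wl n S T l i j

/-- the sign attached to `T` -/
def eT (n T q : ℕ) : ℤ := Ps n q ^ T.factorization q * (kq n q * cq n q T)

/-- the sign attached to `S` -/
def eS (n S q : ℕ) : ℤ := Ps n q ^ S.factorization q * cq n q S

theorem pow_sq {q : ℕ} (hq : q.Prime) (k : ℕ) : Ps n q ^ k * Ps n q ^ k = 1 := by
  rw [← mul_pow]
  rcases Ps_pm (n := n) hq.ne_zero with h | h <;> rw [h] <;> norm_num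

theorem eT_sq {q T : ℕ} (hq : q.Prime) (hT : T ≠ 0) : eT n T q * eT n T q = 1 := by
  unfold eT
  have h1 := pow_sq (n := n) hq (T.factorization q)
  have h2 := kq_sq (n := n) hq
  have h3 := cq_sq (n := n) hq hT
  linear_combination (kq n q * kq n q * (cq n q T * cq n q T)) * h1 +
    (cq n q T * cq n q T) * h2 + h3

theorem eS_sq {q S : ℕ} (hq : q.Prime) (hS : S ≠ 0) : eS n S q * eS n S q = 1 := by
  unfold eS
  have h1 := pow_sq (n := n) hq (S.factorization q)
  have h3 := cq_sq (n := n) hq hS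
  linear_combination (cq n q S * cq n q S) * h1 + h3

/-- the local sum at a prime of `n` -/
theorem Ls_pf (h : Ok n) {c S T : ℕ} (hS : S ≠ 0) (hT : T ≠ 0)
    (hST : S + T = c * n) {p : ℕ} (hp : p ∈ n.primeFactors) :
    Ls n S T p = if p ∣ T then eS n S p + eT n T p else eT n T p := by
  have hd := dvd_iff' hST hp
  have hpp := pf_prime hp
  unfold Ls Wl wq
  simp only [if_pos hp, if_neg (h.ne3 hp), if_neg (h.ne5 hp), mul_one]
  by_cases h1 : p ∣ T
  · simp only [if_pos h1]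
    have s1 := (dvd_fac hpp hS).1 (hd.2 h1)
    have t1 := (dvd_fac hpp hT).1 h1
    rw [two_pt (S.factorization p) (T.factorization p) (S.factorization p) 0 0 (T.factorization p)
      le_rfl (Nat.zero_le _) (Nat.zero_le _) le_rfl (Or.inl (by omega)) (cq n p S)
      (kq n p * cq n p T) (fun i j => Ps n p ^ (i + j))]
    simp only [add_zero, zero_add]
    rfl
  · simp only [if_neg h1]
    unfold eT
    rw [Nat.factorization_eq_zero_of_not_dvd h1, Nat.factorization_eq_zero_of_not_dvd (fun h2 => h1 (hd.1 h2))]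
    simp only [zero_add, Finset.sum_range_one, pow_zero, one_mul]

theorem Ls_three (h : Ok n) {S T : ℕ} (hT3 : ¬ 3 ∣ T) :
    Ls n S T 3 = (S.factorization 3 : ℤ) := by
  have h3 : (3 : ℕ) ∉ n.primeFactors := fun h1 => h.ne3 h1 rfl
  unfold Ls
  rw [Nat.factorization_eq_zero_of_not_dvd hT3, zero_add, ← one_sum]
  refine Finset.sum_congr rfl fun i _ => ?_
  rw [Finset.sum_range_one]
  unfold Wl
  rw [if_neg h3, if_pos rfl, if_neg (by norm_num : (3 : ℕ) ≠ 5), h.Ps_three, one_pow]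
  ring

theorem Ls_five (h : Ok n) {S T : ℕ} (hS5 : ¬ 5 ∣ S) :
    Ls n S T 5 = if Odd (T.factorization 5) then -1 else 0 := by
  have h5 : (5 : ℕ) ∉ n.primeFactors := fun h1 => h.ne5 h1 rfl
  unfold Ls
  rw [Nat.factorization_eq_zero_of_not_dvd hS5, zero_add, Finset.sum_range_one, ← alt_sum]
  refine Finset.sum_congr rfl fun j _ => ?_
  unfold Wl
  rw [if_neg h5, if_pos rfl, if_neg (by norm_num : (5 : ℕ) ≠ 3), h.Ps_five, zero_add]
  ring

theorem one_zero (h : Ok n) {c S T : ℕ} (hc : c = 1 ∨ c = 2) (hS : S ≠ 0) (hT : T ≠ 0)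
    (hST : S + T = c * n) {l : ℕ} (hp : l.Prime) (hl : l ∉ n.primeFactors) :
    S.factorization l = 0 ∨ T.factorization l = 0 := by
  by_contra h0
  push Not at h0
  have h1 := (dvd_fac hp hS).2 (by omega)
  have h3 := (dvd_fac hp hT).2 (by omega)
  have h2 : l ≠ 2 := by rintro rfl; exact hl h.mem2
  exact hl ((h.mem hp).2 (dvd_cn hc hp h2 (hST ▸ dvd_add h1 h3)))

theorem Ls_gen (h : Ok n) {c S T : ℕ} (hc : c = 1 ∨ c = 2) (hS : S ≠ 0) (hT : T ≠ 0)
    (hST : S + T = c * n) {l : ℕ} (hp : l.Prime) (h3 : l ≠ 3) (h5 : l ≠ 5)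
    (hl : l ∉ n.primeFactors) :
    Ls n S T l = fac n (S * T) l := by
  rw [facg_eq h hS hT hp hl]
  unfold Ls Wl
  simp only [if_neg hl, if_neg h3, if_neg h5, mul_one]
  rcases one_zero h hc hS hT hST hp hl with h0 | h0
  · rw [h0, zero_add, Finset.sum_range_one, zero_add]
    exact Finset.sum_congr rfl fun j _ => by rw [zero_add]
  · rw [h0, zero_add, add_zero]
    exact Finset.sum_congr rfl fun i _ => by rw [Finset.sum_range_one, add_zero]

/-- the local sum at an odd prime of `n` -/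
theorem Ls_p (h : Ok n) {c S T : ℕ} (hS : S ≠ 0) (hT : T ≠ 0)
    (hST : S + T = c * n) {p : ℕ} (hp : p ∈ n.primeFactors.erase 2) :
    Ls n S T p = eT n T p * (if p ∣ T then fac n (S * T) p else 1) := by
  have hp' := Finset.mem_of_mem_erase hp
  have hpp := pf_prime hp'
  have h2 := Finset.ne_of_mem_erase hp
  rw [Ls_pf h hS hT hST hp']
  by_cases h1 : p ∣ T
  · rw [if_pos h1, if_pos h1, facp_eq h hS hT hp]
    have c1 := eT_sq (n := n) hpp hT
    unfold eS
    unfold eT at c1 ⊢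
    unfold kq at c1 ⊢
    rw [if_neg h2] at c1 ⊢
    rw [cq_odd h2] at c1 ⊢
    rw [cq_odd h2, pow_add]
    linear_combination (-(Ps n p ^ S.factorization p * chp p S)) * c1
  · rw [if_neg h1, if_neg h1, mul_one]

/-! ### the signs -/

theorem er_sub_Q' (h : Ok n) {S T : ℕ} : n.primeFactors.erase 2 ⊆ Q' n S T := fun _ hp =>
  Finset.mem_erase.2 ⟨h.ne5 (Finset.mem_of_mem_erase hp), Finset.mem_erase.2
    ⟨h.ne3 (Finset.mem_of_mem_erase hp), Finset.mem_erase.2 ⟨Finset.ne_of_mem_erase hp,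
    sub_QQ (Finset.mem_of_mem_erase hp)⟩⟩⟩

/-- the local sums away from `2`, `3` and `5` -/
theorem Ls_Q' (h : Ok n) {c S T : ℕ} (hc : c = 1 ∨ c = 2) (hS : S ≠ 0) (hT : T ≠ 0)
    (hST : S + T = c * n) {l : ℕ} (hl : l ∈ Q' n S T) :
    Ls n S T l = (if l ∈ n.primeFactors.erase 2 then eT n T l else 1) * Ff n S T l := by
  obtain ⟨hp, h2, h3, h5, hm⟩ := mem_Q' hl
  have hD := mem_ST hS hT hp
  by_cases hlP : l ∈ n.primeFactors
  · have hlP' : l ∈ n.primeFactors.erase 2 := Finset.mem_erase.2 ⟨h2, hlP⟩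
    have hd := dvd_iff' hST hlP
    have hD' : l ∈ (S * T).primeFactors ↔ l ∣ T := by rw [hD, hd, or_self]
    rw [if_pos hlP', Ls_p h hS hT hST hlP']
    unfold Ff
    simp only [hD']
  · rw [if_neg (fun h1 => hlP (Finset.mem_of_mem_erase h1)), one_mul, Ls_gen h hc hS hT hST hp h3 h5 hlP]
    unfold Ff
    rw [if_pos (hm hlP)]

/-- the powers away from `n` -/
theorem pow_one_of (h : Ok n) {c S T : ℕ} (hc : c = 1 ∨ c = 2) (hS : S ≠ 0) (hT : T ≠ 0)
    (hST : S + T = c * n) (hF : ∀ l ∈ Q' n S T, Ff n S T l ≠ 0) {l : ℕ} (hl : l ∈ Q' n S T)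
    (hlP : l ∉ n.primeFactors) :
    Ps n l ^ S.factorization l = 1 ∧ Ps n l ^ T.factorization l = 1 := by
  obtain ⟨hp, h2, h3, h5, hm⟩ := mem_Q' hl
  have h6 := hF l hl
  unfold Ff at h6
  rw [if_pos (hm hlP), facg_eq h hS hT hp hlP] at h6
  rcases one_zero h hc hS hT hST hp hlP with h0 | h0
  · rw [h0, zero_add] at h6
    rw [h0, pow_zero]
    refine ⟨rfl, ?_⟩
    rcases Ps_pm (n := n) hp.ne_zero with h7 | h7
    · rw [h7, one_pow]
    · rw [h7] at h6 ⊢
      exact (alt_zero h6).neg_one_pow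
  · rw [h0, add_zero] at h6
    rw [h0, pow_zero]
    refine ⟨?_, rfl⟩
    rcases Ps_pm (n := n) hp.ne_zero with h7 | h7
    · rw [h7, one_pow]
    · rw [h7] at h6 ⊢
      exact (alt_zero h6).neg_one_pow

/-- splitting off `2`, `3` and `5` -/
theorem split_QQ (S T : ℕ) (f : ℕ → ℤ) :
    ∏ l ∈ QQ n S T, f l = f 2 * (f 3 * (f 5 * ∏ l ∈ Q' n S T, f l)) := by
  rw [← Finset.mul_prod_erase _ _ (mem_QQ2 (n := n) (S := S) (T := T)),
    ← Finset.mul_prod_erase _ _ (Finset.mem_erase.2 ⟨by norm_num, mem_QQ3 (n := n) (S := S) (T := T)⟩ :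
        3 ∈ (QQ n S T).erase 2),
    ← Finset.mul_prod_erase _ _ (Finset.mem_erase.2 ⟨by norm_num, Finset.mem_erase.2
        ⟨by norm_num, mem_QQ5 (n := n) (S := S) (T := T)⟩⟩ :
        5 ∈ ((QQ n S T).erase 2).erase 3)]
  rfl

/-- the product of the signs attached to `T` -/
theorem prod_eT (h : Ok n) {c S T : ℕ} (hc : c = 1 ∨ c = 2) (hS : S ≠ 0) (hT : T ≠ 0)
    (hST : S + T = c * n) (hodd : Odd (T.factorization 5))
    (hF : ∀ l ∈ Q' n S T, Ff n S T l ≠ 0) :
    ∏ l ∈ n.primeFactors, eT n T l = 1 := by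
  classical
  have hsub : T.primeFactors ⊆ QQ n S T :=
    (Nat.primeFactors_mono (dvd_mul_left T S) (mul_ne_zero hS hT)).trans pf_QQ
  have e2 : Ps n T = -∏ l ∈ n.primeFactors, Ps n l ^ T.factorization l := by
    rw [Ps_fac n (QQ n S T) T hT hsub, split_QQ, h.Ps_three, one_pow, one_mul, h.Ps_five,
      hodd.neg_one_pow, ← Finset.mul_prod_erase n.primeFactors _ h.mem2]
    have e3 : ∏ l ∈ Q' n S T, Ps n l ^ T.factorization l =
        ∏ l ∈ n.primeFactors.erase 2, Ps n l ^ T.factorization l := by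
      symm
      refine Finset.prod_subset (er_sub_Q' h) fun l hl hlP => ?_
      refine (pow_one_of h hc hS hT hST hF hl fun h1 => hlP (Finset.mem_erase.2 ⟨?_, h1⟩)).2
      exact (mem_Q' hl).2.1
    rw [e3]
    ring
  have c2 : (∏ l ∈ n.primeFactors, Ps n l ^ T.factorization l) *
      (∏ l ∈ n.primeFactors, Ps n l ^ T.factorization l) = 1 := by
    rw [← Finset.prod_mul_distrib]
    exact Finset.prod_eq_one fun l hl => pow_sq (pf_prime hl) _
  unfold eT
  rw [Finset.prod_mul_distrib, Finset.prod_mul_distrib, h.kprod]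
  have e3 : ∏ l ∈ n.primeFactors, cq n l T = Ps n T := rfl
  rw [e3, e2]
  linear_combination c2

/-- the product of the signs attached to `S` -/
theorem prod_eS (h : Ok n) {c S T : ℕ} (hc : c = 1 ∨ c = 2) (hS : S ≠ 0) (hT : T ≠ 0)
    (hST : S + T = c * n) (hS5 : ¬ 5 ∣ S)
    (hF : ∀ l ∈ Q' n S T, Ff n S T l ≠ 0) :
    ∏ l ∈ n.primeFactors, eS n S l = 1 := by
  classical
  have hsub : S.primeFactors ⊆ QQ n S T :=
    (Nat.primeFactors_mono (dvd_mul_right S T) (mul_ne_zero hS hT)).trans pf_QQ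
  have e2 : Ps n S = ∏ l ∈ n.primeFactors, Ps n l ^ S.factorization l := by
    rw [Ps_fac n (QQ n S T) S hS hsub, split_QQ, h.Ps_three, one_pow, one_mul,
      Nat.factorization_eq_zero_of_not_dvd hS5, pow_zero, one_mul,
      ← Finset.mul_prod_erase n.primeFactors _ h.mem2]
    have e3 : ∏ l ∈ Q' n S T, Ps n l ^ S.factorization l =
        ∏ l ∈ n.primeFactors.erase 2, Ps n l ^ S.factorization l := by
      symm
      refine Finset.prod_subset (er_sub_Q' h) fun l hl hlP => ?_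
      refine (pow_one_of h hc hS hT hST hF hl fun h1 => hlP (Finset.mem_erase.2 ⟨?_, h1⟩)).1
      exact (mem_Q' hl).2.1
    rw [e3]
  have c2 : (∏ l ∈ n.primeFactors, Ps n l ^ S.factorization l) *
      (∏ l ∈ n.primeFactors, Ps n l ^ S.factorization l) = 1 := by
    rw [← Finset.prod_mul_distrib]
    exact Finset.prod_eq_one fun l hl => pow_sq (pf_prime hl) _
  unfold eS
  rw [Finset.prod_mul_distrib]
  have e3 : ∏ l ∈ n.primeFactors, cq n l S = Ps n S := rfl
  rw [e3, e2]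
  exact c2

/-- the signs at the odd primes agree -/
theorem eS_eq (h : Ok n) {c S T : ℕ} (hS : S ≠ 0) (hT : T ≠ 0)
    (hST : S + T = c * n) (hF : ∀ l ∈ Q' n S T, Ff n S T l ≠ 0) {p : ℕ}
    (hp : p ∈ n.primeFactors.erase 2) : eS n S p = eT n T p := by
  have hp' := Finset.mem_of_mem_erase hp
  have hpp := pf_prime hp'
  have h2 := Finset.ne_of_mem_erase hp
  have hd := dvd_iff' hST hp'
  by_cases h1 : p ∣ T
  · have h6 := hF p (er_sub_Q' h hp)
    unfold Ff at h6
    rw [if_pos ((mem_ST hS hT hpp).2 (Or.inr h1)), facp_eq h hS hT hp, pow_add] at h6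
    have c1 := eT_sq (n := n) hpp hT
    have c3 := eS_sq (n := n) hpp hS
    have e1 : eS n S p * eT n T p = Ps n p ^ S.factorization p * Ps n p ^ T.factorization p *
        (ZMod.χ₄ p * (chp p S * chp p T)) := by
      unfold eS eT kq
      rw [if_neg h2, cq_odd h2, cq_odd h2]
      ring
    rw [← e1] at h6
    rcases mul_self_eq_one_iff.1 c1 with h7 | h7 <;> rcases mul_self_eq_one_iff.1 c3 with h8 | h8 <;>
      rw [h7, h8] at h6 ⊢ <;> norm_num at h6
  · have h1' : ¬ p ∣ S := fun h3 => h1 (hd.1 h3)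
    unfold eS eT kq
    rw [if_neg h2, cq_odd h2, cq_odd h2, Nat.factorization_eq_zero_of_not_dvd h1,
      Nat.factorization_eq_zero_of_not_dvd h1', pow_zero, one_mul, one_mul, chp_nd h1, chp_nd h1',
      ← jacobiSym.neg _ (podd hp)]
    apply jacobiSym.mod_left'
    have h3 : ((S : ℤ) + T) = c * n := by exact_mod_cast hST
    have h4 : (p : ℤ) ∣ n := by exact_mod_cast pf_dvd hp'
    have h5 : (S : ℤ) = -T + c * n := by linarith
    rw [h5]
    apply Int.emod_emod_of_dvd _ (dvd_refl _) |>.symm.trans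
    obtain ⟨k, hk⟩ := h4
    rw [hk]
    simp [Int.add_emod, Int.mul_emod]

theorem eS_two (h : Ok n) {c S T : ℕ} (hc : c = 1 ∨ c = 2) (hS : S ≠ 0) (hT : T ≠ 0)
    (hST : S + T = c * n) (hS5 : ¬ 5 ∣ S) (hodd : Odd (T.factorization 5))
    (hF : ∀ l ∈ Q' n S T, Ff n S T l ≠ 0) : eS n S 2 = eT n T 2 := by
  have h1 := prod_eT h hc hS hT hST hodd hF
  have h3 := prod_eS h hc hS hT hST hS5 hF
  rw [← Finset.mul_prod_erase _ _ h.mem2] at h1 h3
  rw [Finset.prod_congr rfl fun p hp => eS_eq h hS hT hST hF hp] at h3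
  have h4 : ∏ p ∈ n.primeFactors.erase 2, eT n T p ≠ 0 := right_ne_zero_of_mul (h1 ▸ one_ne_zero)
  exact mul_right_cancel₀ h4 (h3.trans h1.symm)

/-! ### the assembly -/

theorem tb_eq (h : Ok n) {c S T : ℕ} (hST : S + T = c * n) :
    tb ((T : ℤ) - (S : ℤ)) = if 2 ∣ T then 2 else 1 := by
  have h4 : (4 : ℤ) ∣ (S : ℤ) + T := by
    have h5 : 4 ∣ S + T := by rw [hST]; exact h.four.mul_left c
    exact_mod_cast h5
  unfold tb
  by_cases h2 : 2 ∣ T
  · rw [if_pos (by omega), if_pos h2]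
  · rw [if_neg (by omega), if_pos (by omega), if_neg h2]

theorem R0_four (h : Ok n) {D : ℕ} (hD : D ≠ 0) : R0 n (4 * D) = R0 n D := by
  unfold R0
  rw [fac4 hD Nat.prime_three (by norm_num), fac4 hD (by norm_num : Nat.Prime 5) (by norm_num),
    pf_four hD]
  congr 1
  have e : ∏ l ∈ ((D.primeFactors.erase 2).erase 3).erase 5, fac n (4 * D) l =
      ∏ l ∈ ((D.primeFactors.erase 2).erase 3).erase 5, fac n D l := by
    refine Finset.prod_congr rfl fun l hl => ?_
    have h1 := Finset.mem_erase.1 (Finset.mem_of_mem_erase (Finset.mem_of_mem_erase hl))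
    exact fac_four h hD (Nat.prime_of_mem_primeFactors h1.2) h1.1
  rw [e]

theorem loc3E_eq {D : ℕ} {b : ℤ} : loc3E n b D = tb b * R0 n D := by
  unfold loc3E R0
  split_ifs <;> ring

/-- the evaluation in product form -/
theorem WW_val (h : Ok n) {c S T : ℕ} (hc : c = 1 ∨ c = 2) (hS : S ≠ 0) (hT : T ≠ 0)
    (hST : S + T = c * n) (hS3 : 3 ∣ S) (hT5 : 5 ∣ T) :
    WWe n S T = - (tb ((T : ℤ) - (S : ℤ)) * R0 n (S * T)) := by
  classical
  unfold R0
  have hT3 : ¬ 3 ∣ T := by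
    intro h1
    exact h.nd3 (dvd_cn hc Nat.prime_three (by norm_num) (hST ▸ dvd_add hS3 h1))
  have hS5 : ¬ 5 ∣ S := by
    intro h1
    exact h.nd5 (dvd_cn hc (by norm_num) (by norm_num) (hST ▸ dvd_add h1 hT5))
  have e0 : ∀ l, ∑ i ∈ range (S.factorization l + 1), ∑ j ∈ range (T.factorization l + 1), Wl n S T l i j =
      Ls n S T l := fun l => rfl
  rw [WW_eq h hS hT hST]
  simp only [e0]
  rw [split_QQ, Ls_three h hT3, Ls_five h hS5]
  have e1 : ∏ l ∈ Q' n S T, Ls n S T l =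
      (∏ l ∈ n.primeFactors.erase 2, eT n T l) * ∏ l ∈ Q' n S T, Ff n S T l := by
    rw [Finset.prod_congr rfl fun l (hl : l ∈ Q' n S T) => Ls_Q' h hc hS hT hST hl,
      Finset.prod_mul_distrib, Finset.prod_ite_mem, Finset.inter_eq_right.2 (er_sub_Q' h)]
  rw [e1]
  have h3D : (S * T).factorization 3 = S.factorization 3 := by
    rw [fac_ST hS hT, Nat.factorization_eq_zero_of_not_dvd hT3, add_zero]
  have h5D : (S * T).factorization 5 = T.factorization 5 := by
    rw [fac_ST hS hT, Nat.factorization_eq_zero_of_not_dvd hS5, zero_add]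
  rw [← prod_Ff, h3D, h5D, tb_eq h hST]
  by_cases hodd : Odd (T.factorization 5)
  · rw [if_pos hodd, if_pos hodd]
    by_cases hF : ∀ l ∈ Q' n S T, Ff n S T l ≠ 0
    · have h1 := prod_eT h hc hS hT hST hodd hF
      rw [← Finset.mul_prod_erase _ _ h.mem2] at h1
      have h7 : Ls n S T 2 = (if 2 ∣ T then 2 else 1) * eT n T 2 := by
        rw [Ls_pf h hS hT hST h.mem2, eS_two h hc hS hT hST hS5 hodd hF]
        split_ifs <;> ring
      rw [h7]
      generalize (if 2 ∣ T then (2 : ℤ) else 1) = τ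
      linear_combination (-(τ * (S.factorization 3 : ℤ) * ∏ l ∈ Q' n S T, Ff n S T l)) * h1
    · push Not at hF
      obtain ⟨l, hl, hl0⟩ := hF
      rw [Finset.prod_eq_zero hl hl0]
      ring
  · rw [if_neg hodd, if_neg hodd]
    ring

/-- even discriminants, determinant `n` or `2 n` -/
theorem t_C2E : S_C2E := by
  intro n hn N hN T hT0 hTn hT5 hS3
  have h := ok_of hn
  obtain ⟨S, hSdef⟩ : ∃ S, S = N - T := ⟨_, rfl⟩
  rw [← hSdef] at hS3 ⊢
  have hS : S ≠ 0 := by omega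
  have hT : T ≠ 0 := by omega
  have hST0 := mul_ne_zero hS hT
  have key : ∀ c : ℕ, (c = 1 ∨ c = 2) → S + T = c * n →
      WWe n S T = - loc3E n ((T : ℤ) - (S : ℤ)) (4 * S * T) := by
    intro c hc hST
    rw [WW_val h hc hS hT hST hS3 hT5, mul_assoc 4 S T, loc3E_eq, R0_four h hST0]
  rcases hN with hN | hN
  · exact key 1 (Or.inl rfl) (by omega)
  · exact key 2 (Or.inr rfl) (by omega)

end Pool.Agent.N295.P15.E
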