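import Pool.Agent.N295.P15.C3A

/-!
# P15-C3 (helper295): `3 ∣ n` or `5 ∣ n`: the signs, and the evaluation of the divisor sums
-/

set_option autoImplicit false

namespace Pool.Agent.N295.TP

open Finset
open Pool.Agent.Z700 (hh fac)
open Pool.Agent.Y574.Z7 (chp chp_mul chp_one chp_self chp_nd chp_sq chp_pm jac_eq sum_local two_pt
  one_sum alt_sum dvd_fac nd4 fac_D mem_D chp_D jac_prod chp_prod)
open Pool.Agent.N969.P15
open Pool.Agent.N973.P15
open Pool.Agent.N295.P15 (QQ mem_QQ2 mem_QQ3 mem_QQ5 sub_QQ pf_QQ QQ_prime dvd_iff' Q' mem_Q' Ff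
  mem_ST prod_Ff alt_zero dvd_cn fac4 chp4 fac_ST R0 pf_four tw_eq fac42)
open Pool.Agent.N295.P15.E (cq kq Ps wq pq Ps_one Ps_fac Ps_pm cq_sq kq_sq cq_two cq_odd cq_mul eT eS
  eT_sq eS_sq pow_sq pq_eq oc_nd pf_prime pf_dvd podd split_QQ tb_eq)

variable {n : ℕ}

/-! ### the signs -/

theorem pow_alt {x : ℤ} (hx : x = 1 ∨ x = -1) {s : ℕ} (h : ∑ j ∈ range (s + 1), x ^ j ≠ 0) :
    x ^ s = 1 := by
  rcases hx with hx | hx
  · rw [hx, one_pow]
  · rw [hx] at h ⊢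
    exact (alt_zero h).neg_one_pow

/-- the powers away from `n` -/
theorem out_one (h : G n) {c S T : ℕ} (hc : c = 1 ∨ c = 2) (hS : S ≠ 0) (hT : T ≠ 0)
    (hST : S + T = c * n) (hL : 2 ∉ n.primeFactors → L2 n S T ≠ 0)
    (hF : ∀ l ∈ Q' n S T, Ff n S T l ≠ 0) {l : ℕ} (hl : l ∈ QQ n S T)
    (hlP : l ∉ n.primeFactors) (h5 : l ≠ 5) :
    Ps n l ^ S.factorization l = 1 ∧ Ps n l ^ T.factorization l = 1 := by
  by_cases h2 : l = 2
  · subst h2
    have h6 := hL hlP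
    unfold L2 at h6
    rw [if_neg hlP] at h6
    have hx := Ps_pm (n := n) (m := 2) (by norm_num)
    exact ⟨pow_alt hx (left_ne_zero_of_mul h6), pow_alt hx (right_ne_zero_of_mul h6)⟩
  by_cases h3 : l = 3
  · subst h3
    rw [h.Ps_three hlP, one_pow, one_pow]
    exact ⟨rfl, rfl⟩
  have hl' : l ∈ Q' n S T :=
    Finset.mem_erase.2 ⟨h5, Finset.mem_erase.2 ⟨h3, Finset.mem_erase.2 ⟨h2, hl⟩⟩⟩
  obtain ⟨hp, _, _, _, hm⟩ := mem_Q' hl'
  have h6 := hF l hl'
  unfold Ff at h6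
  rw [if_pos (hm hlP), facg_eq h hS hT hp h2 hlP] at h6
  have hx := Ps_pm (n := n) hp.ne_zero
  rcases one_zero h hc hS hT hST hp h2 hlP with h0 | h0
  · rw [h0, zero_add] at h6
    rw [h0, pow_zero]
    exact ⟨rfl, pow_alt hx h6⟩
  · rw [h0, add_zero] at h6
    rw [h0, pow_zero]
    exact ⟨pow_alt hx h6, rfl⟩

/-- the sign at `5` -/
def de (n : ℕ) : ℤ := if 5 ∈ n.primeFactors then 1 else -1

theorem de_pm : de n = 1 ∨ de n = -1 := by
  unfold de; split_ifs <;> simp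

/-- the product of the signs attached to `T` -/
theorem prod_eT (h : G n) {c S T : ℕ} (hc : c = 1 ∨ c = 2) (hS : S ≠ 0) (hT : T ≠ 0)
    (hST : S + T = c * n) (hodd : 5 ∉ n.primeFactors → Odd (T.factorization 5))
    (hL : 2 ∉ n.primeFactors → L2 n S T ≠ 0)
    (hF : ∀ l ∈ Q' n S T, Ff n S T l ≠ 0) :
    ∏ l ∈ n.primeFactors, eT n T l = -de n := by
  classical
  have hsub : T.primeFactors ⊆ QQ n S T :=
    (Nat.primeFactors_mono (dvd_mul_left T S) (mul_ne_zero hS hT)).trans pf_QQ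
  have e1 : ∏ l ∈ QQ n S T, (Ps n l ^ T.factorization l * (if l = 5 then de n else 1)) =
      Ps n T * de n := by
    rw [Finset.prod_mul_distrib, ← Ps_fac n (QQ n S T) T hT hsub,
      Finset.prod_ite_eq' (QQ n S T) 5 (fun _ => de n), if_pos mem_QQ5]
  have e2 : ∏ l ∈ n.primeFactors, (Ps n l ^ T.factorization l * (if l = 5 then de n else 1)) =
      ∏ l ∈ QQ n S T, (Ps n l ^ T.factorization l * (if l = 5 then de n else 1)) := by
    refine Finset.prod_subset sub_QQ fun l hl hlP => ?_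
    by_cases h5 : l = 5
    · subst h5
      rw [if_pos rfl, h.Ps_five hlP, (hodd hlP).neg_one_pow]
      unfold de
      rw [if_neg hlP]
      norm_num
    · rw [(out_one h hc hS hT hST hL hF hl hlP h5).2, if_neg h5, one_mul]
  have e3 : ∏ l ∈ n.primeFactors, (Ps n l ^ T.factorization l * (if l = 5 then de n else 1)) =
      ∏ l ∈ n.primeFactors, Ps n l ^ T.factorization l := by
    rw [Finset.prod_mul_distrib, Finset.prod_ite_eq' n.primeFactors 5 (fun _ => de n)]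
    unfold de
    split_ifs <;> ring
  have e4 : ∏ l ∈ n.primeFactors, Ps n l ^ T.factorization l = Ps n T * de n :=
    e3.symm.trans (e2.trans e1)
  have c2 : Ps n T * Ps n T = 1 := by
    rcases Ps_pm (n := n) hT with h | h <;> rw [h] <;> norm_num
  unfold eT
  rw [Finset.prod_mul_distrib, Finset.prod_mul_distrib, h.kprod, e4]
  have e5 : ∏ l ∈ n.primeFactors, cq n l T = Ps n T := rfl
  rw [e5]
  linear_combination (-(de n)) * c2

/-- the product of the signs attached to `S` -/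
theorem prod_eS (h : G n) {c S T : ℕ} (hc : c = 1 ∨ c = 2) (hS : S ≠ 0) (hT : T ≠ 0)
    (hST : S + T = c * n) (hT5 : 5 ∣ T) (hL : 2 ∉ n.primeFactors → L2 n S T ≠ 0)
    (hF : ∀ l ∈ Q' n S T, Ff n S T l ≠ 0) :
    ∏ l ∈ n.primeFactors, eS n S l = 1 := by
  classical
  have p5 : Nat.Prime 5 := by norm_num
  have hsub : S.primeFactors ⊆ QQ n S T :=
    (Nat.primeFactors_mono (dvd_mul_right S T) (mul_ne_zero hS hT)).trans pf_QQ
  have e2 : ∏ l ∈ n.primeFactors, Ps n l ^ S.factorization l = Ps n S := by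
    rw [Ps_fac n (QQ n S T) S hS hsub]
    refine Finset.prod_subset sub_QQ fun l hl hlP => ?_
    by_cases h5 : l = 5
    · subst h5
      have hS5 : ¬ 5 ∣ S := by
        intro h1
        exact hlP ((h.mem p5).2 (dvd_cn hc p5 (by norm_num) (hST ▸ dvd_add h1 hT5)))
      rw [Nat.factorization_eq_zero_of_not_dvd hS5, pow_zero]
    · exact (out_one h hc hS hT hST hL hF hl hlP h5).1
  have c2 : Ps n S * Ps n S = 1 := by
    rcases Ps_pm (n := n) hS with h | h <;> rw [h] <;> norm_num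
  unfold eS
  rw [Finset.prod_mul_distrib, e2]
  exact c2

/-- the signs at the odd primes apart from `5` agree -/
theorem eS_eq (h : G n) {c S T : ℕ} (hS : S ≠ 0) (hT : T ≠ 0)
    (hST : S + T = c * n) (h3 : 3 ∣ n → ¬ 3 ∣ T) (hF : ∀ l ∈ Q' n S T, Ff n S T l ≠ 0) {p : ℕ}
    (hp : p ∈ n.primeFactors.erase 2) (h5 : p ≠ 5) : eS n S p = eT n T p := by
  have hp' := Finset.mem_of_mem_erase hp
  have hpp := pf_prime hp'
  have h2 := Finset.ne_of_mem_erase hp
  have hd := dvd_iff' hST hp'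
  by_cases h1 : p ∣ T
  · have hp3 : p ≠ 3 := by
      rintro rfl
      exact h3 (pf_dvd hp') h1
    have hl' : p ∈ Q' n S T :=
      Finset.mem_erase.2 ⟨h5, Finset.mem_erase.2 ⟨hp3, Finset.mem_erase.2 ⟨h2, sub_QQ hp'⟩⟩⟩
    have h6 := hF p hl'
    unfold Ff fac at h6
    rw [if_pos ((mem_ST hS hT hpp).2 (Or.inr h1)), if_pos (pf_dvd hp'), hh_ST h hS hT hp] at h6
    have c1 := eT_sq (n := n) hpp hT
    have c3 := eS_sq (n := n) hpp hS
    rcases mul_self_eq_one_iff.1 c1 with h7 | h7 <;> rcases mul_self_eq_one_iff.1 c3 with h8 | h8 <;>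
      rw [h7, h8] at h6 ⊢ <;> norm_num at h6
  · have h1' : ¬ p ∣ S := fun h3 => h1 (hd.1 h3)
    unfold eS eT kq
    rw [if_neg h2, cq_odd h2, cq_odd h2, Nat.factorization_eq_zero_of_not_dvd h1,
      Nat.factorization_eq_zero_of_not_dvd h1', pow_zero, one_mul, one_mul, chp_nd h1, chp_nd h1',
      ← jacobiSym.neg _ (podd hp)]
    apply jacobiSym.mod_left'
    have h3 : ((S : ℤ) + T) = c * n := by exact_mod_cast hST
    have h4 : (p : ℤ) ∣ n := by exact_mod_cast pf_dvd hp'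
    have h5 : (S : ℤ) = -T + c * n := by linarith
    rw [h5]
    obtain ⟨k, hk⟩ := h4
    rw [hk]
    apply Int.emod_emod_of_dvd _ (dvd_refl _) |>.symm.trans
    simp [Int.add_emod, Int.mul_emod]

/-- the product formula -/
theorem s_rel (h : G n) {c S T : ℕ} (hc : c = 1 ∨ c = 2) (hS : S ≠ 0) (hT : T ≠ 0)
    (hST : S + T = c * n) (h3 : 3 ∣ n → ¬ 3 ∣ T) (hT5 : 5 ∣ T)
    (hodd : 5 ∉ n.primeFactors → Odd (T.factorization 5))
    (hL : 2 ∉ n.primeFactors → L2 n S T ≠ 0)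
    (hF : ∀ l ∈ Q' n S T, Ff n S T l ≠ 0) :
    (if 2 ∈ n.primeFactors then eS n S 2 * eT n T 2 else 1) *
      (if 5 ∈ n.primeFactors then eS n S 5 * eT n T 5 else 1) = -de n := by
  classical
  have e1 : ∏ l ∈ n.primeFactors, (eS n S l * eT n T l) = -de n := by
    rw [Finset.prod_mul_distrib, prod_eT h hc hS hT hST hodd hL hF, prod_eS h hc hS hT hST hT5 hL hF,
      one_mul]
  have e2 : ∏ l ∈ n.primeFactors, (eS n S l * eT n T l) =
      ∏ l ∈ n.primeFactors, ((if l = 2 then eS n S 2 * eT n T 2 else 1) *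
        (if l = 5 then eS n S 5 * eT n T 5 else 1)) := by
    refine Finset.prod_congr rfl fun l hl => ?_
    by_cases h2 : l = 2
    · subst h2
      rw [if_pos rfl, if_neg (by norm_num), mul_one]
    by_cases h5 : l = 5
    · subst h5
      rw [if_pos rfl, if_neg (by norm_num), one_mul]
    rw [if_neg h2, if_neg h5, eS_eq h hS hT hST h3 hF (Finset.mem_erase.2 ⟨h2, hl⟩) h5,
      eT_sq (pf_prime hl) hT, one_mul]
  rw [e2, Finset.prod_mul_distrib,
    Finset.prod_ite_eq' n.primeFactors 2 (fun _ => eS n S 2 * eT n T 2),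
    Finset.prod_ite_eq' n.primeFactors 5 (fun _ => eS n S 5 * eT n T 5)] at e1
  exact e1

/-! ### the evaluation in product form -/

/-- the factor at `2` -/
def M2 (n S T : ℕ) : ℤ :=
  if 2 ∈ n.primeFactors then (if 2 ∣ T then 2 else 1)
  else (∑ i ∈ range (S.factorization 2 + 1), Ps n 2 ^ i) *
      ∑ j ∈ range (T.factorization 2 + 1), Ps n 2 ^ j

/-- `5` inert -/
theorem val_A (h : G n) {c S T : ℕ} (hc : c = 1 ∨ c = 2) (hS : S ≠ 0) (hT : T ≠ 0)
    (hST : S + T = c * n) (h3 : 3 ∣ n → ¬ 3 ∣ T) (hT5 : 5 ∣ T) (h5 : 5 ∉ n.primeFactors) :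
    WG n S T = - (if Odd (T.factorization 5) then M2 n S T * ∏ l ∈ Q' n S T, Ff n S T l else 0) := by
  rw [WG_val h hc hS hT hST h3 hT5]
  unfold L5
  rw [if_neg h5]
  by_cases hodd : Odd (T.factorization 5)
  · rw [if_pos hodd, if_pos hodd]
    by_cases hF : ∀ l ∈ Q' n S T, Ff n S T l ≠ 0
    · by_cases hL : 2 ∉ n.primeFactors → L2 n S T ≠ 0
      · rw [prod_eT h hc hS hT hST (fun _ => hodd) hL hF]
        have e1 : de n = -1 := if_neg h5
        have e2 : L2 n S T = M2 n S T := by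
          unfold L2 M2
          by_cases h2 : 2 ∈ n.primeFactors
          · rw [if_pos h2, if_pos h2]
            have e3 := s_rel h hc hS hT hST h3 hT5 (fun _ => hodd) hL hF
            rw [if_pos h2, if_neg h5, e1, mul_one] at e3
            rw [e3]
            norm_num
          · rw [if_neg h2, if_neg h2]
        rw [e1, e2]
        ring
      · push Not at hL
        have e2 : M2 n S T = 0 := by
          have := hL.2
          unfold L2 at this
          unfold M2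
          rw [if_neg hL.1] at this ⊢
          exact this
        rw [hL.2, e2]
        ring
    · push Not at hF
      obtain ⟨l, hl, hl0⟩ := hF
      rw [Finset.prod_eq_zero hl hl0]
      ring
  · rw [if_neg hodd, if_neg hodd]
    ring

/-- `5` ramified -/
theorem val_B (h : G n) {c S T : ℕ} (hc : c = 1 ∨ c = 2) (hS : S ≠ 0) (hT : T ≠ 0)
    (hST : S + T = c * n) (h3 : 3 ∣ n → ¬ 3 ∣ T) (hT5 : 5 ∣ T) (h5 : 5 ∈ n.primeFactors)
    (h2T : 2 ∈ n.primeFactors → ¬ 2 ∣ T → eS n S 2 = eT n T 2) :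
    2 * WG n S T = - ((1 - eS n S 5 * eT n T 5) * (M2 n S T * ∏ l ∈ Q' n S T, Ff n S T l)) := by
  have p5 : Nat.Prime 5 := by norm_num
  rw [WG_val h hc hS hT hST h3 hT5]
  unfold L5
  rw [if_pos h5]
  by_cases hF : ∀ l ∈ Q' n S T, Ff n S T l ≠ 0
  · by_cases hL : 2 ∉ n.primeFactors → L2 n S T ≠ 0
    · have n5 : 5 ∉ n.primeFactors → Odd (T.factorization 5) := fun h6 => absurd h5 h6
      rw [prod_eT h hc hS hT hST n5 hL hF]
      have e1 : de n = 1 := if_pos h5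
      have e3 := s_rel h hc hS hT hST h3 hT5 n5 hL hF
      rw [if_pos h5, e1] at e3
      rw [e1]
      unfold L2 M2
      by_cases h2 : 2 ∈ n.primeFactors
      · rw [if_pos h2] at e3
        rw [if_pos h2, if_pos h2]
        have c1 : (eS n S 5 * eT n T 5) * (eS n S 5 * eT n T 5) = 1 := by
          linear_combination (eS n S 5 * eS n S 5) * eT_sq (n := n) p5 hT + eS_sq (n := n) p5 hS
        by_cases hT2 : 2 ∣ T
        · rw [if_pos hT2, if_pos hT2]
          generalize eS n S 5 * eT n T 5 = x at *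
          generalize eS n S 2 * eT n T 2 = y at *
          generalize ∏ l ∈ Q' n S T, Ff n S T l = F
          have : y = -x := by linear_combination x * e3 - y * c1
          rw [this]
          ring
        · rw [if_neg hT2, if_neg hT2]
          rw [h2T h2 hT2, eT_sq Nat.prime_two hT, one_mul] at e3
          rw [e3]
          ring
      · rw [if_neg h2, one_mul] at e3
        rw [if_neg h2, if_neg h2, e3]
        ring
    · push Not at hL
      have e2 : M2 n S T = 0 := by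
        have := hL.2
        unfold L2 at this
        unfold M2
        rw [if_neg hL.1] at this ⊢
        exact this
      rw [hL.2, e2]
      ring
  · push Not at hF
    obtain ⟨l, hl, hl0⟩ := hF
    rw [Finset.prod_eq_zero hl hl0]
    ring

/-! ### the comparison with the local densities -/

/-- the product of the local factors away from `30` -/
def R1 (n D : ℕ) : ℤ := ∏ l ∈ ((D.primeFactors.erase 2).erase 3).erase 5, fac n D l

theorem R1_four (h : G n) {D : ℕ} (hD : D ≠ 0) : R1 n (4 * D) = R1 n D := by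
  unfold R1
  rw [pf_four hD]
  refine Finset.prod_congr rfl fun l hl => ?_
  have h1 := Finset.mem_erase.1 (Finset.mem_of_mem_erase (Finset.mem_of_mem_erase hl))
  exact fac_four h hD (Nat.prime_of_mem_primeFactors h1.2) h1.1

theorem loc_eq {D : ℕ} (h3 : ¬ 3 ∣ D) :
    loc n D = if Odd (D.factorization 5) then tw n D * R1 n D else 0 := by
  unfold loc R1
  rw [Finset.erase_eq_of_notMem (a := 3)
    (fun h1 => h3 (Nat.dvd_of_mem_primeFactors (Finset.mem_of_mem_erase h1)))]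

theorem locE_eq {D : ℕ} {b : ℤ} (h3 : ¬ 3 ∣ D) :
    locE n b D = if Odd (D.factorization 5) then tb b * R1 n D else 0 := by
  unfold locE R1
  rw [Finset.erase_eq_of_notMem (a := 3)
    (fun h1 => h3 (Nat.dvd_of_mem_primeFactors (Finset.mem_of_mem_erase h1)))]

theorem lc5_eq {D : ℕ} (h5 : 5 ∣ D) : lc5 n D = (1 - hh n D 5) * (tw n D * R1 n D) := if_pos h5

theorem lc5E_eq {D : ℕ} {b : ℤ} (h5 : 5 ∣ D) :
    lc5E n b D = (1 - hh n D 5) * (tb b * R1 n D) := if_pos h5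

theorem M2_even (h2 : 2 ∈ n.primeFactors) (S T : ℕ) : M2 n S T = if 2 ∣ T then 2 else 1 := if_pos h2

theorem M2_odd (h : Pool.Agent.N295.P15.Fd n) (S T : ℕ) :
    M2 n S T = (∑ i ∈ range (S.factorization 2 + 1), ep2 n ^ i) *
      ∑ j ∈ range (T.factorization 2 + 1), ep2 n ^ j := by
  unfold M2
  rw [if_neg fun h1 => h.ne2 h1 rfl, Ps_odd h, h.Ps_two]

/-- determinant `n` -/
theorem tw_A (h : Pool.Agent.N295.P15.Fd n) {S T : ℕ} (hS : S ≠ 0) (hT : T ≠ 0)
    (hST : S + T = 1 * n) : M2 n S T = tw n (4 * (S * T)) := by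
  rw [M2_odd h, tw_eq, fac42 (mul_ne_zero hS hT), fac_ST (l := 2) hS hT]
  have h1 : S.factorization 2 = 0 ∨ T.factorization 2 = 0 := by
    by_contra h0
    push Not at h0
    have h1 := (dvd_fac Nat.prime_two hS).2 (by omega)
    have h3 := (dvd_fac Nat.prime_two hT).2 (by omega)
    exact h.nd2 (by have := dvd_add h1 h3; rwa [hST, one_mul] at this)
  rcases h1 with h1 | h1
  · rw [h1, zero_add, Finset.sum_range_one, pow_zero, one_mul, zero_add]
    rfl
  · rw [h1, zero_add, Finset.sum_range_one, pow_zero, mul_one, add_zero]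
    rfl

/-- determinant `2 n` -/
theorem tw_B (h : Pool.Agent.N295.P15.Fd n) {S T : ℕ} (hS : S ≠ 0) (hT : T ≠ 0)
    (hST : S + T = 2 * n) :
    M2 n S T = tw n (4 * (S * T)) + if 2 ∣ T then ep2 n * tw n (S * T) else 0 := by
  rw [M2_odd h, tw_eq, tw_eq, fac42 (mul_ne_zero hS hT), fac_ST (l := 2) hS hT]
  have hodd := h.odd
  rw [Nat.odd_iff] at hodd
  by_cases h2 : 2 ∣ T
  · rw [if_pos h2]
    have hS2 : 2 ∣ S := by omega
    -- one of them is `2 mod 4`
    have key : ∀ t : ℕ, (∑ i ∈ range (1 + 1), ep2 n ^ i) * ∑ j ∈ range (t + 1), ep2 n ^ j =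
        ∑ j ∈ range (t + 2), ep2 n ^ j + ep2 n * ∑ j ∈ range t, ep2 n ^ j := by
      intro t
      have e3 : ∑ i ∈ range (1 + 1), ep2 n ^ i = 1 + ep2 n := by
        simp [Finset.sum_range_succ]
      have e4 : ∑ j ∈ range (t + 2), ep2 n ^ j = ∑ j ∈ range (t + 1), ep2 n ^ j + ep2 n ^ (t + 1) :=
        Finset.sum_range_succ _ _
      have e5 : ∑ j ∈ range (t + 1), ep2 n ^ j = ∑ j ∈ range t, ep2 n ^ j + ep2 n ^ t :=
        Finset.sum_range_succ _ _
      rw [e3, e4, e5, pow_succ]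
      ring
    have h1 : S.factorization 2 = 1 ∨ T.factorization 2 = 1 := by
      have s1 := (dvd_fac Nat.prime_two hS).1 hS2
      have t1 := (dvd_fac Nat.prime_two hT).1 h2
      by_contra h0
      push Not at h0
      have h3 : 2 ^ 2 ∣ S := (Nat.prime_two.pow_dvd_iff_le_factorization hS).2 (by omega)
      have h4 : 2 ^ 2 ∣ T := (Nat.prime_two.pow_dvd_iff_le_factorization hT).2 (by omega)
      have h5 := dvd_add h3 h4
      rw [hST] at h5
      omega
    rcases h1 with h1 | h1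
    · rw [h1, key]
      have a1 : 1 + T.factorization 2 + 2 - 1 = T.factorization 2 + 2 := by omega
      have a2 : 1 + T.factorization 2 - 1 = T.factorization 2 := by omega
      rw [a1, a2]
    · rw [h1, mul_comm, key]
      have a1 : S.factorization 2 + 1 + 2 - 1 = S.factorization 2 + 2 := by omega
      have a2 : S.factorization 2 + 1 - 1 = S.factorization 2 := by omega
      rw [a1, a2]
  · rw [if_neg h2]
    have hS2 : ¬ 2 ∣ S := by omega
    rw [Nat.factorization_eq_zero_of_not_dvd h2, Nat.factorization_eq_zero_of_not_dvd hS2]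
    simp

theorem v5 {S T : ℕ} (hS : S ≠ 0) (hT : T ≠ 0) (h5 : ¬ 5 ∣ S) :
    (S * T).factorization 5 = T.factorization 5 := by
  rw [fac_ST hS hT, Nat.factorization_eq_zero_of_not_dvd h5, zero_add]

theorem v54 {S T : ℕ} (hS : S ≠ 0) (hT : T ≠ 0) (h5 : ¬ 5 ∣ S) :
    (4 * (S * T)).factorization 5 = T.factorization 5 := by
  rw [fac4 (mul_ne_zero hS hT) (by norm_num : Nat.Prime 5) (by norm_num), v5 hS hT h5]

theorem nd_mul {S T : ℕ} (h : ¬ 3 ∣ S) (h' : ¬ 3 ∣ T) : ¬ 3 ∣ S * T := by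
  rw [Nat.Prime.dvd_mul Nat.prime_three]
  tauto

theorem nd_mul4 {S T : ℕ} (h : ¬ 3 ∣ S) (h' : ¬ 3 ∣ T) : ¬ 3 ∣ 4 * (S * T) := by
  rw [Nat.Prime.dvd_mul Nat.prime_three]
  rintro (h1 | h1)
  · omega
  · exact nd_mul h h' h1

/-! ### `3 ∣ n`, `5` inert -/

theorem of_Cl3 (hn : Cl3 n) : Pool.Agent.N295.P15.Fd n ∧ G n := by
  obtain ⟨h1, h2, h3, h4⟩ := hn
  exact ⟨⟨h1, h2⟩, G_odd ⟨h1, h2⟩ (Or.inl h3) (Or.inr h4)⟩

theorem prep3 {n c S T : ℕ} (hc : c = 1 ∨ c = 2) (h3 : 3 ∣ n) (h5 : n % 5 = 2 ∨ n % 5 = 3)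
    (hST : S + T = c * n) (hT5 : 5 ∣ T) (hT3 : ¬ 3 ∣ T) :
    ¬ 3 ∣ S ∧ ¬ 5 ∣ S ∧ 5 ∉ n.primeFactors := by
  refine ⟨fun h => ?_, fun h => ?_, fun h => ?_⟩
  · have h6 : 3 ∣ c * n := h3.mul_left c
    rw [← hST] at h6
    exact hT3 ((Nat.dvd_add_right h).1 h6)
  · have h6 : 5 ∣ c * n := hST ▸ dvd_add h hT5
    have := dvd_cn hc (by norm_num : Nat.Prime 5) (by norm_num) h6
    omega
  · have := Nat.dvd_of_mem_primeFactors h
    omega

theorem t_C23A : S_C23A := by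
  intro n hn T hT0 hTn hT5 hT3
  obtain ⟨hf, h⟩ := of_Cl3 hn
  obtain ⟨S, hSdef⟩ : ∃ S, S = n - T := ⟨_, rfl⟩
  rw [← hSdef]
  have hST : S + T = 1 * n := by omega
  have hS : S ≠ 0 := by omega
  have hT : T ≠ 0 := by omega
  have hST0 := mul_ne_zero hS hT
  obtain ⟨hS3, hS5, h5⟩ := prep3 (Or.inl rfl) hn.2.2.1 hn.2.2.2 hST hT5 hT3
  rw [WG_odd hf, val_A h (Or.inl rfl) hS hT hST (fun _ => hT3) hT5 h5, mul_assoc 4 S T,
    loc_eq (nd_mul4 hS3 hT3), v54 hS hT hS5, R1_four h hST0, tw_A hf hS hT hST, prod_Ff]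
  rfl

theorem t_C23B : S_C23B := by
  intro n hn T hT0 hTn hT5 hT3
  obtain ⟨hf, h⟩ := of_Cl3 hn
  obtain ⟨S, hSdef⟩ : ∃ S, S = 2 * n - T := ⟨_, rfl⟩
  rw [← hSdef]
  have hST : S + T = 2 * n := by omega
  have hS : S ≠ 0 := by omega
  have hT : T ≠ 0 := by omega
  have hST0 := mul_ne_zero hS hT
  obtain ⟨hS3, hS5, h5⟩ := prep3 (Or.inr rfl) hn.2.2.1 hn.2.2.2 hST hT5 hT3
  rw [WG_odd hf, val_A h (Or.inr rfl) hS hT hST (fun _ => hT3) hT5 h5, mul_assoc 4 S T,
    loc_eq (nd_mul4 hS3 hT3), loc_eq (nd_mul hS3 hT3), v54 hS hT hS5, v5 hS hT hS5, R1_four h hST0,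
    tw_B hf hS hT hST, prod_Ff]
  unfold R1
  split_ifs <;> ring

theorem t_C23E : S_C23E := by
  intro n hn N hN T hT0 hTn hT5 hT3
  obtain ⟨h1, h2, h3⟩ := hn
  have hf : Pool.Agent.N295.P15.E.Fd n := ⟨h1⟩
  have h := G_ev hf (Or.inl h2) (Or.inr h3)
  obtain ⟨S, hSdef⟩ : ∃ S, S = N - T := ⟨_, rfl⟩
  rw [← hSdef]
  have hS : S ≠ 0 := by omega
  have hT : T ≠ 0 := by omega
  have hST0 := mul_ne_zero hS hT
  have key : ∀ c : ℕ, (c = 1 ∨ c = 2) → S + T = c * n →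
      WWAe n S T = - locE n ((T : ℤ) - (S : ℤ)) (4 * S * T) := by
    intro c hc hST
    obtain ⟨hS3, hS5, h5⟩ := prep3 hc h2 h3 hST hT5 hT3
    have htb : tb ((T : ℤ) - (S : ℤ)) = if 2 ∣ T then 2 else 1 := by
      have h4 : (4 : ℤ) ∣ (S : ℤ) + T := by
        have h5 : 4 ∣ S + T := by rw [hST]; exact hf.four.mul_left c
        exact_mod_cast h5
      unfold tb
      by_cases h2 : 2 ∣ T
      · rw [if_pos (by omega), if_pos h2]
      · rw [if_neg (by omega), if_pos (by omega), if_neg h2]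
    rw [WG_ev hf, val_A h hc hS hT hST (fun _ => hT3) hT5 h5, mul_assoc 4 S T,
      locE_eq (nd_mul4 hS3 hT3), v54 hS hT hS5, R1_four h hST0, M2_even hf.mem2, htb, prod_Ff]
    rfl
  rcases hN with hN | hN
  · exact key 1 (Or.inl rfl) (by omega)
  · exact key 2 (Or.inr rfl) (by omega)

/-! ### `5 ∣ n` -/

theorem of_Cl5 (hn : Cl15 n ∨ Cl5 n) : Pool.Agent.N295.P15.Fd n ∧ G n ∧ 5 ∣ n := by
  rcases hn with ⟨h1, h2, h3, h4⟩ | ⟨h1, h2, h3, h4⟩
  · exact ⟨⟨h1, h2⟩, G_odd ⟨h1, h2⟩ (Or.inl h3) (Or.inl h4), h4⟩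
  · exact ⟨⟨h1, h2⟩, G_odd ⟨h1, h2⟩ (Or.inr h3) (Or.inl h4), h4⟩

theorem of_Cl5e (hn : Cl15e n ∨ Cl5e n) : Pool.Agent.N295.P15.E.Fd n ∧ G n ∧ 5 ∣ n := by
  rcases hn with ⟨h1, h3, h4⟩ | ⟨h1, h3, h4⟩
  · exact ⟨⟨h1⟩, G_ev ⟨h1⟩ (Or.inl h3) (Or.inl h4), h4⟩
  · exact ⟨⟨h1⟩, G_ev ⟨h1⟩ (Or.inr h3) (Or.inl h4), h4⟩

theorem mem5 (h : G n) (h5 : 5 ∣ n) : 5 ∈ n.primeFactors.erase 2 :=
  mem_er h (by norm_num) (by norm_num) h5

theorem t_C25A : S_C25A := by
  intro n hn T hT0 hTn hT5 hT3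
  obtain ⟨hf, h, h5⟩ := of_Cl5 hn
  obtain ⟨S, hSdef⟩ : ∃ S, S = n - T := ⟨_, rfl⟩
  rw [← hSdef]
  have hST : S + T = 1 * n := by omega
  have hS : S ≠ 0 := by omega
  have hT : T ≠ 0 := by omega
  have hST0 := mul_ne_zero hS hT
  have m5 := mem5 h h5
  have d5 : 5 ∣ S * T := hT5.mul_left S
  rw [WG_odd hf, val_B h (Or.inl rfl) hS hT hST hT3 hT5 (Finset.mem_of_mem_erase m5)
      (fun h1 => absurd rfl (hf.ne2 h1)), mul_assoc 4 S T, lc5_eq (d5.mul_left 4),
    hh_four h hST0 m5, hh_ST h hS hT m5, R1_four h hST0, tw_A hf hS hT hST, prod_Ff]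
  rfl

theorem t_C25B : S_C25B := by
  intro n hn T hT0 hTn hT5 hT3
  obtain ⟨hf, h, h5⟩ := of_Cl5 hn
  obtain ⟨S, hSdef⟩ : ∃ S, S = 2 * n - T := ⟨_, rfl⟩
  rw [← hSdef]
  have hST : S + T = 2 * n := by omega
  have hS : S ≠ 0 := by omega
  have hT : T ≠ 0 := by omega
  have hST0 := mul_ne_zero hS hT
  have m5 := mem5 h h5
  have d5 : 5 ∣ S * T := hT5.mul_left S
  rw [WG_odd hf, val_B h (Or.inr rfl) hS hT hST hT3 hT5 (Finset.mem_of_mem_erase m5)
      (fun h1 => absurd rfl (hf.ne2 h1)), mul_assoc 4 S T, lc5_eq (d5.mul_left 4), lc5_eq d5,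
    hh_four h hST0 m5, hh_ST h hS hT m5, R1_four h hST0, tw_B hf hS hT hST, prod_Ff]
  unfold R1
  split_ifs <;> ring

/-- the signs at `2` agree for odd `T` -/
theorem e2_eq (hf : Pool.Agent.N295.P15.E.Fd n) {c S T : ℕ} (hST : S + T = c * n) (hT : ¬ 2 ∣ T) :
    eS n S 2 = eT n T 2 := by
  have h4 := hf.four
  have hS2 : ¬ 2 ∣ S := by
    intro h1
    have h5 : 2 ∣ c * n := (dvd_trans (by norm_num) h4).mul_left c
    rw [← hST] at h5
    exact hT ((Nat.dvd_add_right h1).1 h5)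
  unfold eS eT kq
  rw [if_pos rfl, cq_two, cq_two, Nat.factorization_eq_zero_of_not_dvd hT,
    Nat.factorization_eq_zero_of_not_dvd hS2, pow_zero, one_mul, one_mul, oc_nd hT, oc_nd hS2,
    ← Pool.Agent.N295.P15.E.c2_mul]
  have h3 : ((S : ℤ) + T) = c * n := by exact_mod_cast hST
  rcases hf.mods with h1 | h1
  · have h6 : (4 : ℤ) ∣ (S : ℤ) + T := by
      rw [h3]
      exact (by exact_mod_cast h4 : (4 : ℤ) ∣ n).mul_left _
    unfold c2
    have g0 : ¬ (S : ℤ) % 2 = 0 := by omega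
    have g1 : ¬ (-1 * (T : ℤ)) % 2 = 0 := by omega
    simp only [if_neg g0, if_neg g1, if_pos h1]
    have g2 : (-1 * (T : ℤ)) % 4 = (S : ℤ) % 4 := by omega
    rw [g2]
  · have h6 : (8 : ℤ) ∣ (S : ℤ) + T := by
      rw [h3]
      have : (8 : ℤ) ∣ n := by omega
      exact this.mul_left _
    rw [Pool.Agent.N295.P15.E.c2_mod n (S : ℤ), Pool.Agent.N295.P15.E.c2_mod n (-1 * (T : ℤ))]
    have g2 : (-1 * (T : ℤ)) % 8 = (S : ℤ) % 8 := by omega
    rw [g2]

theorem t_C25E : S_C25E := by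
  intro n hn N hN T hT0 hTn hT5 hT3
  obtain ⟨hf, h, h5⟩ := of_Cl5e hn
  obtain ⟨S, hSdef⟩ : ∃ S, S = N - T := ⟨_, rfl⟩
  rw [← hSdef]
  have hS : S ≠ 0 := by omega
  have hT : T ≠ 0 := by omega
  have hST0 := mul_ne_zero hS hT
  have m5 := mem5 h h5
  have d5 : 5 ∣ S * T := hT5.mul_left S
  have key : ∀ c : ℕ, (c = 1 ∨ c = 2) → S + T = c * n →
      2 * WWAe n S T = - lc5E n ((T : ℤ) - (S : ℤ)) (4 * S * T) := by
    intro c hc hST
    have htb : tb ((T : ℤ) - (S : ℤ)) = if 2 ∣ T then 2 else 1 := by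
      have h4 : (4 : ℤ) ∣ (S : ℤ) + T := by
        have h5 : 4 ∣ S + T := by rw [hST]; exact hf.four.mul_left c
        exact_mod_cast h5
      unfold tb
      by_cases h2 : 2 ∣ T
      · rw [if_pos (by omega), if_pos h2]
      · rw [if_neg (by omega), if_pos (by omega), if_neg h2]
    rw [WG_ev hf, val_B h hc hS hT hST hT3 hT5 (Finset.mem_of_mem_erase m5)
        (fun _ h1 => e2_eq hf hST h1), mul_assoc 4 S T, lc5E_eq (d5.mul_left 4),
      hh_four h hST0 m5, hh_ST h hS hT m5, R1_four h hST0, M2_even hf.mem2, htb, prod_Ff]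
    rfl
  rcases hN with hN | hN
  · exact key 1 (Or.inl rfl) (by omega)
  · exact key 2 (Or.inr rfl) (by omega)

end Pool.Agent.N295.TP
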