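import Pool.Agent.N969.P15.Defs2
import Pool.Agent.N295.P15.C2

/-!
# P15-C2E (helper295): even discriminants: symbols, and the summand as a product of local weights
-/

set_option autoImplicit false

namespace Pool.Agent.N295.P15.E

open Finset
open Pool.Agent.Z700 (hh fac)
open Pool.Agent.Y574.Z7 (chp chp_mul chp_one chp_self chp_nd chp_sq chp_pm jac_eq sum_local two_pt
  one_sum alt_sum dvd_fac nd4 fac_D mem_D chp_D jac_prod chp_prod)
open Pool.Agent.N969.P15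

variable {n : ℕ}

/-! ### the class -/

/-- even fundamental discriminants -/
structure Fd (n : ℕ) : Prop where
  ev : Ev n

/-- the hypotheses on `n` -/
structure Ok (n : ℕ) : Prop extends Fd n where
  m3 : n % 3 = 2
  m5 : n % 5 = 2 ∨ n % 5 = 3

theorem ok_of {n : ℕ} (h : Cls0e n) : Ok n := ⟨⟨h.1⟩, h.2.1, h.2.2⟩

theorem Fd.n0 (h : Fd n) : n ≠ 0 := by
  rintro rfl
  obtain ⟨m, hm, hs, h4⟩ := h.ev
  omega

theorem Fd.four (h : Fd n) : 4 ∣ n := by
  obtain ⟨m, hm, _⟩ := h.ev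
  exact ⟨m, hm⟩

theorem Fd.mods (h : Fd n) : n % 16 = 4 ∨ n % 32 = 8 ∨ n % 32 = 24 := by
  obtain ⟨m, hm, hs, h4⟩ := h.ev
  omega

theorem pf_prime {q : ℕ} (hq : q ∈ n.primeFactors) : q.Prime := Nat.prime_of_mem_primeFactors hq

theorem pf_dvd {q : ℕ} (hq : q ∈ n.primeFactors) : q ∣ n := Nat.dvd_of_mem_primeFactors hq

theorem Fd.mem (h : Fd n) {q : ℕ} (hq : q.Prime) : q ∈ n.primeFactors ↔ q ∣ n :=
  ⟨pf_dvd, fun hd => Nat.mem_primeFactors.2 ⟨hq, hd, h.n0⟩⟩

theorem Fd.mem2 (h : Fd n) : 2 ∈ n.primeFactors :=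
  (h.mem Nat.prime_two).2 (dvd_trans (by norm_num) h.four)

theorem Ok.ne3 (h : Ok n) {q : ℕ} (hq : q ∈ n.primeFactors) : q ≠ 3 := by
  rintro rfl
  have h1 := pf_dvd hq
  have := h.m3
  omega

theorem Ok.ne5 (h : Ok n) {q : ℕ} (hq : q ∈ n.primeFactors) : q ≠ 5 := by
  rintro rfl
  have h1 := pf_dvd hq
  have := h.m5
  omega

theorem podd {q : ℕ} (hq : q ∈ n.primeFactors.erase 2) : Odd q :=
  (pf_prime (Finset.mem_of_mem_erase hq)).odd_of_ne_two (Finset.ne_of_mem_erase hq)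

theorem Ok.nd3 (h : Ok n) : ¬ 3 ∣ n := by have := h.m3; omega

theorem Ok.nd5 (h : Ok n) : ¬ 5 ∣ n := by have := h.m5; omega

/-- the odd part of `n` -/
def no (n : ℕ) : ℕ := ∏ q ∈ n.primeFactors.erase 2, q

/-- `n = 4 δ no n`, `δ = 1` or `2` -/
theorem Fd.dec (h : Fd n) : ∃ δ : ℕ, n = 4 * δ * no n ∧ Odd (no n) ∧
    ((δ = 1 ∧ no n % 4 = 1 ∧ n % 16 = 4) ∨ (δ = 2 ∧ no n % 4 = 1 ∧ n % 32 = 8) ∨
      (δ = 2 ∧ no n % 4 = 3 ∧ n % 32 = 24)) := by
  classical
  obtain ⟨m, hm, hs, h4⟩ := h.ev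
  have hm0 : m ≠ 0 := by rintro rfl; exact h.n0 (by rw [hm])
  have hpf : n.primeFactors.erase 2 = m.primeFactors.erase 2 := by
    rw [hm]
    exact pf_four hm0
  have hno : no n = ∏ q ∈ m.primeFactors.erase 2, q := by
    unfold no; rw [hpf]
  have hodd : Odd (no n) := by
    unfold no
    apply Finset.prod_induction _ (fun x => Odd x) (fun _ _ => Odd.mul) odd_one
    exact fun q hq => podd hq
  have hall : ∏ q ∈ m.primeFactors, q = m := Nat.prod_primeFactors_of_squarefree hs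
  by_cases h2 : 2 ∣ m
  · have h2m : 2 ∈ m.primeFactors := Nat.mem_primeFactors.2 ⟨Nat.prime_two, h2, hm0⟩
    have e1 : 2 * no n = m := by
      rw [hno]
      exact (Finset.mul_prod_erase m.primeFactors (fun q => q) h2m).trans hall
    refine ⟨2, by omega, hodd, ?_⟩
    rw [Nat.odd_iff] at hodd
    right
    have h5 : no n % 4 = 1 ∨ no n % 4 = 3 := by omega
    rcases h5 with h5 | h5
    · left; exact ⟨rfl, h5, by omega⟩
    · right; exact ⟨rfl, h5, by omega⟩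
  · have e1 : no n = m := by
      rw [hno, Finset.erase_eq_of_notMem (fun h3 => h2 (Nat.dvd_of_mem_primeFactors h3)), hall]
    refine ⟨1, by omega, hodd, ?_⟩
    left
    exact ⟨rfl, by omega, by omega⟩

theorem Fd.fac1 (h : Fd n) {q : ℕ} (hq : q ∈ n.primeFactors.erase 2) : n.factorization q = 1 := by
  obtain ⟨m, hm, hs, h4⟩ := h.ev
  have hm0 : m ≠ 0 := by rintro rfl; exact h.n0 (by rw [hm])
  have hp := pf_prime (Finset.mem_of_mem_erase hq)
  have h2 := Finset.ne_of_mem_erase hq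
  have e : n.factorization q = m.factorization q := by
    rw [hm]; exact fac4 hm0 hp h2
  apply le_antisymm
  · rw [e]; exact hs.natFactorization_le_one q
  · exact (dvd_fac hp h.n0).1 (pf_dvd (Finset.mem_of_mem_erase hq))

/-! ### the character at two -/

theorem c2_even (n : ℕ) {u : ℤ} (hu : u % 2 = 0) : c2 n u = 0 := by
  unfold c2; rw [if_pos hu]

theorem c2_mod (n : ℕ) (u : ℤ) : c2 n u = c2 n (u % 8) := by
  unfold c2
  rw [show u % 8 % 2 = u % 2 by omega, show u % 8 % 4 = u % 4 by omega,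
    show u % 8 % 8 = u % 8 by omega]

theorem c2_one (n : ℕ) : c2 n 1 = 1 := by
  unfold c2
  split_ifs <;> simp_all

theorem c2_val (n : ℕ) : (c2 n 3 = -1 ∧ c2 n 5 = 1 ∧ c2 n 7 = -1) ∨
    (c2 n 3 = 1 ∧ c2 n 5 = -1 ∧ c2 n 7 = -1) ∨ (c2 n 3 = -1 ∧ c2 n 5 = -1 ∧ c2 n 7 = 1) := by
  by_cases h1 : n % 16 = 4
  · left
    unfold c2
    simp [h1]
  · by_cases h2 : n % 32 = 8
    · right; left
      unfold c2
      simp [h1, h2]
    · right; right
      unfold c2
      simp [h1, h2]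

theorem c2_mul (n : ℕ) (u v : ℤ) : c2 n (u * v) = c2 n u * c2 n v := by
  by_cases hu : u % 2 = 0
  · rw [c2_even n hu, zero_mul, c2_even n (by rw [Int.mul_emod, hu, zero_mul]; rfl)]
  by_cases hv : v % 2 = 0
  · rw [c2_even n hv, mul_zero, c2_even n (by rw [Int.mul_emod, hv, mul_zero]; rfl)]
  have hu8 : u % 8 = 1 ∨ u % 8 = 3 ∨ u % 8 = 5 ∨ u % 8 = 7 := by omega
  have hv8 : v % 8 = 1 ∨ v % 8 = 3 ∨ v % 8 = 5 ∨ v % 8 = 7 := by omega
  rw [c2_mod n (u * v), c2_mod n u, c2_mod n v, Int.mul_emod u v 8]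
  have h1 := c2_one n
  rcases c2_val n with ⟨h3, h5, h7⟩ | ⟨h3, h5, h7⟩ | ⟨h3, h5, h7⟩ <;>
  rcases hu8 with a | a | a | a <;> rcases hv8 with b | b | b | b <;> rw [a, b] <;>
  norm_num [h1, h3, h5, h7]

theorem c2_sq (n : ℕ) {u : ℤ} (hu : u % 2 = 1) : c2 n u * c2 n u = 1 := by
  unfold c2
  rw [if_neg (by omega)]
  split_ifs <;> norm_num

/-- the character of the odd part -/
def oc (n m : ℕ) : ℤ := c2 n ((m / 2 ^ m.factorization 2 : ℕ) : ℤ)

theorem oc_mul (n a b : ℕ) : oc n (a * b) = oc n a * oc n b := by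
  unfold oc
  rw [Nat.ordCompl_mul, Nat.cast_mul, c2_mul]

theorem oc_one (n : ℕ) : oc n 1 = 1 := by
  unfold oc
  simp [c2_one]

theorem oc_nd {m : ℕ} (h : ¬ 2 ∣ m) : oc n m = c2 n m := by
  unfold oc
  rw [Nat.factorization_eq_zero_of_not_dvd h, pow_zero, Nat.div_one]

theorem oc_sq {m : ℕ} (hm : m ≠ 0) : oc n m * oc n m = 1 := by
  unfold oc
  apply c2_sq
  have := Nat.not_dvd_ordCompl Nat.prime_two hm
  omega

theorem c2_eq (n m : ℕ) : c2 n (m : ℤ) = if 2 ∣ m then 0 else oc n m := by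
  split_ifs with h
  · exact c2_even n (by omega)
  · exact (oc_nd h).symm

theorem c2_neg (n m : ℕ) : c2 n (-(m : ℤ)) = c2 n (-1) * (if 2 ∣ m then 0 else oc n m) := by
  rw [← c2_eq, ← c2_mul]
  congr 1
  ring

/-! ### the symbols at the ramified primes -/

/-- the symbol of the part prime to `q` -/
def cq (n q m : ℕ) : ℤ := if q = 2 then oc n m else chp q m

theorem cq_two (n m : ℕ) : cq n 2 m = oc n m := if_pos rfl

theorem cq_odd {q : ℕ} (h : q ≠ 2) (m : ℕ) : cq n q m = chp q m := if_neg h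

theorem cq_mul (n q a b : ℕ) : cq n q (a * b) = cq n q a * cq n q b := by
  unfold cq
  split_ifs
  · exact oc_mul n a b
  · exact chp_mul q a b

theorem cq_one (n q : ℕ) : cq n q 1 = 1 := by
  unfold cq
  split_ifs
  · exact oc_one n
  · exact chp_one q

theorem cq_sq {q m : ℕ} (hq : q.Prime) (hm : m ≠ 0) : cq n q m * cq n q m = 1 := by
  unfold cq
  split_ifs
  · exact oc_sq hm
  · exact chp_sq hq hm

/-- the value at `-1` -/
def kq (n q : ℕ) : ℤ := if q = 2 then c2 n (-1) else ZMod.χ₄ q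

theorem kq_sq {q : ℕ} (hq : q.Prime) : kq n q * kq n q = 1 := by
  unfold kq
  split_ifs with h
  · exact c2_sq n (by norm_num)
  · have hodd := hq.odd_of_ne_two h
    have h2 : q % 4 = 1 ∨ q % 4 = 3 := by
      rw [Nat.odd_iff] at hodd; omega
    rcases h2 with h2 | h2
    · rw [ZMod.χ₄_nat_one_mod_four h2]; norm_num
    · rw [ZMod.χ₄_nat_three_mod_four h2]; norm_num

/-- the product of the symbols -/
def Ps (n m : ℕ) : ℤ := ∏ q ∈ n.primeFactors, cq n q m

theorem Ps_one (n : ℕ) : Ps n 1 = 1 := by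
  unfold Ps
  exact Finset.prod_eq_one fun q _ => cq_one n q

theorem Ps_mul (n a b : ℕ) : Ps n (a * b) = Ps n a * Ps n b := by
  unfold Ps
  rw [← Finset.prod_mul_distrib]
  exact Finset.prod_congr rfl fun q _ => cq_mul n q a b

theorem Ps_pow (n a k : ℕ) : Ps n (a ^ k) = Ps n a ^ k := by
  induction k with
  | zero => rw [pow_zero, pow_zero, Ps_one]
  | succ k ih => rw [pow_succ, Ps_mul, ih, pow_succ]

theorem Ps_prod (n : ℕ) (s : Finset ℕ) (f : ℕ → ℕ) :
    Ps n (∏ l ∈ s, f l) = ∏ l ∈ s, Ps n (f l) := by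
  classical
  induction s using Finset.induction_on with
  | empty => rw [Finset.prod_empty, Finset.prod_empty, Ps_one]
  | insert l s hl ih => rw [Finset.prod_insert hl, Finset.prod_insert hl, Ps_mul, ih]

/-- `Ps` is completely multiplicative -/
theorem Ps_fac (n : ℕ) (Q : Finset ℕ) (m : ℕ) (hm : m ≠ 0) (h : m.primeFactors ⊆ Q) :
    Ps n m = ∏ l ∈ Q, Ps n l ^ m.factorization l := by
  have h1 : ∏ l ∈ m.primeFactors, l ^ m.factorization l = m := by
    have h2 := Nat.prod_factorization_pow_eq_self hm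
    unfold Finsupp.prod at h2
    rwa [Nat.support_factorization] at h2
  have h2 : Ps n m = ∏ l ∈ m.primeFactors, Ps n l ^ m.factorization l := by
    conv_lhs => rw [← h1]
    rw [Ps_prod]
    exact Finset.prod_congr rfl fun l _ => Ps_pow n l _
  rw [h2]
  refine Finset.prod_subset h fun l _ hl => ?_
  rw [Finsupp.notMem_support_iff.1 (by rwa [Nat.support_factorization]), pow_zero]

theorem Ps_pm {m : ℕ} (hm : m ≠ 0) : Ps n m = 1 ∨ Ps n m = -1 := by
  have h : Ps n m * Ps n m = 1 := by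
    unfold Ps
    rw [← Finset.prod_mul_distrib]
    exact Finset.prod_eq_one fun q hq => cq_sq (pf_prime hq) hm
  exact mul_self_eq_one_iff.1 h

/-- the odd part of the product -/
theorem Fd.Ps_split (h : Fd n) (m : ℕ) :
    Ps n m = oc n m * ∏ q ∈ n.primeFactors.erase 2, chp q m := by
  unfold Ps
  rw [← Finset.mul_prod_erase _ _ h.mem2, cq_two]
  congr 1
  exact Finset.prod_congr rfl fun q hq => cq_odd (Finset.ne_of_mem_erase hq) m

theorem prod_nd {m : ℕ} (hm : ∀ q ∈ n.primeFactors.erase 2, ¬ q ∣ m) :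
    ∏ q ∈ n.primeFactors.erase 2, chp q m = jacobiSym m (no n) := by
  unfold no
  rw [jac_prod _ _ fun q hq => (pf_prime (Finset.mem_of_mem_erase hq)).ne_zero]
  exact Finset.prod_congr rfl fun q hq => chp_nd (hm q hq)

theorem jac_four {l : ℕ} (hl : Odd l) (x : ℤ) : jacobiSym (4 * x) l = jacobiSym x l := by
  rw [show (4 : ℤ) * x = 2 ^ 2 * x by norm_num, jacobiSym.mul_left, jacobiSym.pow_left]
  have h1 : jacobiSym 2 l ^ 2 = 1 := by
    apply jacobiSym.sq_one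
    rw [show (2 : ℤ) = ((2 : ℕ) : ℤ) from rfl, Int.gcd_natCast_natCast]
    exact (Nat.coprime_two_left).2 hl
  rw [h1, one_mul]

theorem c2_case1 {u : ℕ} (hu : Odd u) (h : n % 16 = 4) : c2 n u = ZMod.χ₄ u := by
  rw [Nat.odd_iff] at hu
  unfold c2
  rw [if_neg (by omega), if_pos h]
  have h2 : u % 4 = 1 ∨ u % 4 = 3 := by omega
  rcases h2 with h2 | h2
  · rw [ZMod.χ₄_nat_one_mod_four h2, if_pos (by omega)]
  · rw [ZMod.χ₄_nat_three_mod_four h2, if_neg (by omega)]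

theorem chi8 {u : ℕ} (hu : Odd u) : ZMod.χ₈ (u : ZMod 8) = if u % 8 = 1 ∨ u % 8 = 7 then 1 else -1 := by
  rw [Nat.odd_iff] at hu
  have h := ZMod.χ₈_nat_eq_if_mod_eight u
  rw [h]
  have h0 : ¬ u % 2 = 0 := by omega
  simp only [if_neg h0]

theorem c2_case2 {u : ℕ} (hu : Odd u) (h : n % 32 = 8) : c2 n u = ZMod.χ₄ u * ZMod.χ₈ u := by
  have hc := chi8 hu
  rw [Nat.odd_iff] at hu
  have e1 : c2 n u = if (u : ℤ) % 8 = 1 ∨ (u : ℤ) % 8 = 3 then 1 else -1 := by
    unfold c2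
    have g0 : ¬ (u : ℤ) % 2 = 0 := by omega
    have g1 : ¬ n % 16 = 4 := by omega
    simp only [if_neg g0, if_neg g1, if_pos h]
  rw [e1, hc]
  have h2 : u % 8 = 1 ∨ u % 8 = 3 ∨ u % 8 = 5 ∨ u % 8 = 7 := by omega
  rcases h2 with h2 | h2 | h2 | h2
  · rw [ZMod.χ₄_nat_one_mod_four (by omega), if_pos (by omega), if_pos (by omega)]; norm_num
  · rw [ZMod.χ₄_nat_three_mod_four (by omega), if_pos (by omega), if_neg (by omega)]; norm_num
  · rw [ZMod.χ₄_nat_one_mod_four (by omega), if_neg (by omega), if_neg (by omega)]; norm_num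
  · rw [ZMod.χ₄_nat_three_mod_four (by omega), if_neg (by omega), if_pos (by omega)]; norm_num

theorem c2_case3 {u : ℕ} (hu : Odd u) (h : n % 32 = 24) : c2 n u = ZMod.χ₈ u := by
  have hc := chi8 hu
  rw [Nat.odd_iff] at hu
  have e1 : c2 n u = if (u : ℤ) % 8 = 1 ∨ (u : ℤ) % 8 = 7 then 1 else -1 := by
    unfold c2
    have g0 : ¬ (u : ℤ) % 2 = 0 := by omega
    have g1 : ¬ n % 16 = 4 := by omega
    have g2 : ¬ n % 32 = 8 := by omega
    simp only [if_neg g0, if_neg g1, if_neg g2]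
  rw [e1, hc]
  have h2 : u % 8 = 1 ∨ u % 8 = 3 ∨ u % 8 = 5 ∨ u % 8 = 7 := by omega
  rcases h2 with h2 | h2 | h2 | h2
  · rw [if_pos (by omega), if_pos (by omega)]
  · rw [if_neg (by omega), if_neg (by omega)]
  · rw [if_neg (by omega), if_neg (by omega)]
  · rw [if_pos (by omega), if_pos (by omega)]

theorem chi_sq' {u : ℕ} (hu : Odd u) : ZMod.χ₄ (u : ZMod 4) * ZMod.χ₄ (u : ZMod 4) = 1 := by
  have h2 : u % 4 = 1 ∨ u % 4 = 3 := by
    rw [Nat.odd_iff] at hu; omega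
  rcases h2 with h2 | h2
  · rw [ZMod.χ₄_nat_one_mod_four h2]; norm_num
  · rw [ZMod.χ₄_nat_three_mod_four h2]; norm_num

/-- quadratic reciprocity in symmetric form -/
theorem qr {a b : ℕ} (ha : Odd a) (hb : Odd b) (hab : a % 4 = 1 ∨ b % 4 = 1) :
    jacobiSym (a : ℤ) b = jacobiSym (b : ℤ) a := by
  rcases hab with h | h
  · exact jacobiSym.quadratic_reciprocity_one_mod_four h hb
  · exact (jacobiSym.quadratic_reciprocity_one_mod_four h ha).symm

/-- reciprocity away from `n` -/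
theorem Fd.Ps_l (h : Fd n) {l : ℕ} (hl : l.Prime) (hn : l ∉ n.primeFactors) :
    Ps n l = jacobiSym (-(n : ℤ)) l := by
  have h2 : l ≠ 2 := by rintro rfl; exact hn h.mem2
  have hlo := hl.odd_of_ne_two h2
  obtain ⟨δ, hd, ho, hc⟩ := h.dec
  have hnd : ∀ q ∈ n.primeFactors.erase 2, ¬ q ∣ l := by
    intro q hq hd
    have hq' := Finset.mem_of_mem_erase hq
    rw [(Nat.prime_dvd_prime_iff_eq (pf_prime hq') hl).1 hd] at hq'
    exact hn hq'
  have h2l : ¬ 2 ∣ l := by rw [Nat.odd_iff] at hlo; omega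
  rw [h.Ps_split, prod_nd hnd, oc_nd h2l]
  have e1 : jacobiSym (-(n : ℤ)) l = ZMod.χ₄ l * (jacobiSym (δ : ℤ) l * jacobiSym (no n : ℤ) l) := by
    have : -(n : ℤ) = 4 * (-((δ * no n : ℕ) : ℤ)) := by
      conv_lhs => rw [hd]
      push_cast
      ring
    rw [this, jac_four hlo, jacobiSym.neg _ hlo, Nat.cast_mul, jacobiSym.mul_left]
  rw [e1]
  rcases hc with ⟨h1, h3, h4⟩ | ⟨h1, h3, h4⟩ | ⟨h1, h3, h4⟩
  · rw [h1, c2_case1 hlo h4, Nat.cast_one, jacobiSym.one_left, one_mul, qr hlo ho (Or.inr h3)]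
  · rw [h1, c2_case2 hlo h4, Nat.cast_ofNat, jacobiSym.at_two hlo, qr hlo ho (Or.inr h3)]
    ring
  · rw [h1, c2_case3 hlo h4, Nat.cast_ofNat, jacobiSym.at_two hlo]
    have h5 : l % 4 = 1 ∨ l % 4 = 3 := by rw [Nat.odd_iff] at hlo; omega
    rcases h5 with h5 | h5
    · rw [qr hlo ho (Or.inl h5), ZMod.χ₄_nat_one_mod_four h5, one_mul]
    · rw [ZMod.χ₄_nat_three_mod_four h5, jacobiSym.quadratic_reciprocity_three_mod_four h3 h5]
      ring

theorem Ok.Ps_three (h : Ok n) : Ps n 3 = 1 := by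
  rw [h.Ps_l Nat.prime_three (fun h3 => h.ne3 h3 rfl), jacobiSym.mod_left]
  have := h.m3
  have h1 : (-(n : ℤ)) % ((3 : ℕ) : ℤ) = 1 := by omega
  rw [h1]; norm_num

theorem Ok.Ps_five (h : Ok n) : Ps n 5 = -1 := by
  rw [h.Ps_l (by norm_num) (fun h3 => h.ne5 h3 rfl), jacobiSym.mod_left]
  rcases h.m5 with h5 | h5
  · have h1 : (-(n : ℤ)) % ((5 : ℕ) : ℤ) = 3 := by omega
    rw [h1]; norm_num
  · have h1 : (-(n : ℤ)) % ((5 : ℕ) : ℤ) = 2 := by omega
    rw [h1]; norm_num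

/-- reciprocity for the odd primes of `n` -/
theorem Fd.Ps_p (h : Fd n) {l : ℕ} (hl : l ∈ n.primeFactors.erase 2) : Ps n l = chp l n := by
  classical
  obtain ⟨r, hr⟩ : ∃ r, r = ∏ q ∈ (n.primeFactors.erase 2).erase l, q := ⟨_, rfl⟩
  have hlp := pf_prime (Finset.mem_of_mem_erase hl)
  have hlo := podd hl
  obtain ⟨δ, hd, ho, hc⟩ := h.dec
  have e1 : l * r = no n := by
    rw [hr]
    exact (Finset.mul_prod_erase (n.primeFactors.erase 2) (fun q => q) hl)
  have hro : Odd r := by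
    rw [← e1] at ho
    exact (Nat.odd_mul.1 ho).2
  have hδ : ¬ l ∣ 4 * δ := by
    intro h1
    have h3 : l ∣ 8 := by
      rcases hc with h2 | h2 | h2 <;> rw [h2.1] at h1
      · exact h1.trans (by norm_num)
      · exact h1
      · exact h1
    have h4 : l ∣ 2 := hlp.dvd_of_dvd_pow (show l ∣ 2 ^ 3 from h3)
    have := (Nat.prime_dvd_prime_iff_eq hlp Nat.prime_two).1 h4
    exact Finset.ne_of_mem_erase hl this
  have hnd : ¬ l ∣ r := by
    intro h1
    obtain ⟨q, hq, hd⟩ := (Prime.dvd_finsetProd_iff hlp.prime _).1 (hr ▸ h1)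
    have hq' := Finset.mem_of_mem_erase (Finset.mem_of_mem_erase hq)
    exact Finset.ne_of_mem_erase hq ((Nat.prime_dvd_prime_iff_eq hlp (pf_prime hq')).1 hd).symm
  have e2 : chp l n = jacobiSym (δ : ℤ) l * jacobiSym (r : ℤ) l := by
    conv_lhs => rw [hd]
    rw [← e1, chp_mul, chp_mul l l r, chp_self hlp, one_mul, chp_nd hnd, chp_nd hδ, Nat.cast_mul,
      Nat.cast_ofNat, jac_four hlo]
  have e3 : ∏ q ∈ n.primeFactors.erase 2, chp q l = jacobiSym (l : ℤ) r := by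
    rw [← Finset.mul_prod_erase _ _ hl, chp_self hlp, one_mul, hr,
      jac_prod _ _ fun q hq => (pf_prime (Finset.mem_of_mem_erase (Finset.mem_of_mem_erase hq))).ne_zero]
    refine Finset.prod_congr rfl fun q hq => chp_nd fun hd => ?_
    exact (Finset.ne_of_mem_erase hq)
      ((Nat.prime_dvd_prime_iff_eq (pf_prime (Finset.mem_of_mem_erase (Finset.mem_of_mem_erase hq)))
        hlp).1 hd)
  have h2l : ¬ 2 ∣ l := by rw [Nat.odd_iff] at hlo; omega
  rw [h.Ps_split, e3, oc_nd h2l, e2]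
  have h7 : l % 4 = 1 ∨ l % 4 = 3 := by rw [Nat.odd_iff] at hlo; omega
  have h8 : r % 4 = 1 ∨ r % 4 = 3 := by rw [Nat.odd_iff] at hro; omega
  have h9 : (l % 4) * (r % 4) % 4 = no n % 4 := by rw [← Nat.mul_mod, e1]
  rcases hc with ⟨h1, h3, h4⟩ | ⟨h1, h3, h4⟩ | ⟨h1, h3, h4⟩
  · rw [h1, c2_case1 hlo h4, Nat.cast_one, jacobiSym.one_left, one_mul]
    rcases h7 with h7 | h7
    · rw [ZMod.χ₄_nat_one_mod_four h7, one_mul, qr hlo hro (Or.inl h7)]
    · rcases h8 with h8 | h8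
      · rw [h7, h8, h3] at h9; omega
      · rw [ZMod.χ₄_nat_three_mod_four h7, jacobiSym.quadratic_reciprocity_three_mod_four h7 h8]
        ring
  · rw [h1, c2_case2 hlo h4, Nat.cast_ofNat, jacobiSym.at_two hlo]
    rcases h7 with h7 | h7
    · rw [ZMod.χ₄_nat_one_mod_four h7, one_mul, qr hlo hro (Or.inl h7)]
    · rcases h8 with h8 | h8
      · rw [h7, h8, h3] at h9; omega
      · rw [ZMod.χ₄_nat_three_mod_four h7, jacobiSym.quadratic_reciprocity_three_mod_four h7 h8]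
        ring
  · rw [h1, c2_case3 hlo h4, Nat.cast_ofNat, jacobiSym.at_two hlo]
    rcases h7 with h7 | h7
    · rw [qr hlo hro (Or.inl h7)]
    · rcases h8 with h8 | h8
      · rw [qr hlo hro (Or.inr h8)]
      · rw [h7, h8, h3] at h9; omega

/-- the value at `-1` of the character -/
theorem Fd.kprod (h : Fd n) : ∏ q ∈ n.primeFactors, kq n q = -1 := by
  obtain ⟨δ, hd, ho, hc⟩ := h.dec
  rw [← Finset.mul_prod_erase _ _ h.mem2]
  have e1 : ∏ q ∈ n.primeFactors.erase 2, kq n q = ZMod.χ₄ (no n) := by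
    unfold no
    rw [Nat.cast_prod, map_prod]
    exact Finset.prod_congr rfl fun q hq => if_neg (Finset.ne_of_mem_erase hq)
  have e2 : kq n 2 = c2 n (-1) := if_pos rfl
  rw [e1, e2]
  rcases hc with ⟨h1, h3, h4⟩ | ⟨h1, h3, h4⟩ | ⟨h1, h3, h4⟩
  · rw [ZMod.χ₄_nat_one_mod_four h3]
    unfold c2
    rw [if_neg (by norm_num), if_pos h4]
    norm_num
  · rw [ZMod.χ₄_nat_one_mod_four h3]
    unfold c2
    rw [if_neg (by norm_num), if_neg (by omega), if_pos h4]
    norm_num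
  · rw [ZMod.χ₄_nat_three_mod_four h3]
    unfold c2
    rw [if_neg (by norm_num), if_neg (by omega), if_neg (by omega)]
    norm_num

end Pool.Agent.N295.P15.E
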