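import Pool.Agent.N973.P15.Defs3
import Pool.Agent.N295.P15.C2E

/-!
# P15-C3 (helper295): `3 ∣ n` or `5 ∣ n`: the summand as a product of local weights, the local sums
-/

set_option autoImplicit false

namespace Pool.Agent.N295.TP

open Finset
open Pool.Agent.Z700 (hh fac)
open Pool.Agent.Y574.Z7 (chp chp_mul chp_one chp_self chp_nd chp_sq chp_pm jac_eq sum_local two_pt
  one_sum alt_sum dvd_fac nd4 fac_D mem_D chp_D jac_prod chp_prod)
open Pool.Agent.N969.P15
open Pool.Agent.N973.P15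
open Pool.Agent.N295.P15 (QQ mem_QQ2 mem_QQ3 mem_QQ5 sub_QQ pf_QQ QQ_prime dvd_iff' Q' mem_Q' Ff
  mem_ST prod_Ff alt_zero dvd_cn fac4 chp4 fac_ST R0 pf_four)
open Pool.Agent.N295.P15.E (cq kq Ps wq pq Ps_one Ps_fac Ps_pm cq_sq kq_sq cq_two cq_odd cq_mul eT eS
  eT_sq eS_sq pow_sq pq_eq oc_nd pf_prime pf_dvd podd split_QQ tb_eq)

variable {n : ℕ}

/-- the common hypotheses on `n` -/
structure G (n : ℕ) : Prop where
  n0 : n ≠ 0
  fac1 : ∀ q ∈ n.primeFactors.erase 2, n.factorization q = 1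
  Ps_l : ∀ l : ℕ, l.Prime → l ≠ 2 → l ∉ n.primeFactors → Ps n l = jacobiSym (-(n : ℤ)) l
  Ps_p : ∀ l ∈ n.primeFactors.erase 2, Ps n l = chp l n
  kprod : ∏ q ∈ n.primeFactors, kq n q = -1
  c3 : 3 ∣ n ∨ n % 3 = 2
  c5 : 5 ∣ n ∨ n % 5 = 2 ∨ n % 5 = 3

theorem G.mem (h : G n) {q : ℕ} (hq : q.Prime) : q ∈ n.primeFactors ↔ q ∣ n :=
  ⟨pf_dvd, fun hd => Nat.mem_primeFactors.2 ⟨hq, hd, h.n0⟩⟩

theorem Ps_odd (h : Pool.Agent.N295.P15.Fd n) (m : ℕ) :
    Ps n m = Pool.Agent.N295.P15.Ps n.primeFactors m :=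
  Finset.prod_congr rfl fun _ hq => cq_odd (h.ne2 hq) m

theorem G_odd (h : Pool.Agent.N295.P15.Fd n) (c3 : 3 ∣ n ∨ n % 3 = 2)
    (c5 : 5 ∣ n ∨ n % 5 = 2 ∨ n % 5 = 3) : G n where
  n0 := h.n0
  fac1 := fun q hq => h.fac1 (Finset.mem_of_mem_erase hq)
  Ps_l := fun l hl h2 hn => by rw [Ps_odd h]; exact h.Ps_l hl h2 hn
  Ps_p := fun l hl => by rw [Ps_odd h]; exact h.Ps_p (Finset.mem_of_mem_erase hl)
  kprod := by
    have e : ∏ q ∈ n.primeFactors, kq n q = ∏ q ∈ n.primeFactors, ZMod.χ₄ (q : ZMod 4) :=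
      Finset.prod_congr rfl fun q hq => if_neg (h.ne2 hq)
    rw [e, ← map_prod, ← Nat.cast_prod, h.prod]
    exact ZMod.χ₄_nat_three_mod_four h.m4
  c3 := c3
  c5 := c5

theorem G_ev (h : Pool.Agent.N295.P15.E.Fd n) (c3 : 3 ∣ n ∨ n % 3 = 2)
    (c5 : 5 ∣ n ∨ n % 5 = 2 ∨ n % 5 = 3) : G n where
  n0 := h.n0
  fac1 := fun _ hq => h.fac1 hq
  Ps_l := fun _ hl _ hn => h.Ps_l hl hn
  Ps_p := fun _ hl => h.Ps_p hl
  kprod := h.kprod
  c3 := c3
  c5 := c5

theorem G.Ps_three (h : G n) (h3 : 3 ∉ n.primeFactors) : Ps n 3 = 1 := by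
  have h0 : n % 3 = 2 := h.c3.resolve_left fun h1 => h3 ((h.mem Nat.prime_three).2 h1)
  rw [h.Ps_l 3 Nat.prime_three (by norm_num) h3, jacobiSym.mod_left]
  have h1 : (-(n : ℤ)) % ((3 : ℕ) : ℤ) = 1 := by omega
  rw [h1]; norm_num

theorem G.Ps_five (h : G n) (h5 : 5 ∉ n.primeFactors) : Ps n 5 = -1 := by
  have h0 := h.c5.resolve_left fun h1 => h5 ((h.mem (by norm_num)).2 h1)
  rw [h.Ps_l 5 (by norm_num) (by norm_num) h5, jacobiSym.mod_left]
  rcases h0 with h0 | h0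
  · have h1 : (-(n : ℤ)) % ((5 : ℕ) : ℤ) = 3 := by omega
    rw [h1]; norm_num
  · have h1 : (-(n : ℤ)) % ((5 : ℕ) : ℤ) = 2 := by omega
    rw [h1]; norm_num

/-! ### the local weights -/

/-- the local weights -/
def Wl (n S T l i j : ℕ) : ℤ :=
  Ps n l ^ (i + j) * (if l ∈ n.primeFactors then wq n S T l i j else 1) *
    (if l = 3 then (if i = 0 ∧ j = 0 then 1 else 0) else 1) *
    (if l = 5 then (if 1 ≤ j then 1 else 0) else 1)

/-- the divisor sum -/
def WG (n S T : ℕ) : ℤ :=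
  ∑ a ∈ S.divisors.filter (fun a => ¬ 3 ∣ a), ∑ a' ∈ T.divisors.filter (fun a' => 5 ∣ a' ∧ ¬ 3 ∣ a'),
    ∏ p ∈ n.primeFactors, pq n p a a' (S / a) (T / a')

theorem WG_odd (h : Pool.Agent.N295.P15.Fd n) (S T : ℕ) : WWA n S T = WG n S T := by
  unfold WWA WG
  refine Finset.sum_congr rfl fun a _ => Finset.sum_congr rfl fun a' _ => ?_
  exact Finset.prod_congr rfl fun p hp => (if_neg (h.ne2 hp)).symm

theorem WG_ev (h : Pool.Agent.N295.P15.E.Fd n) (S T : ℕ) : WWAe n S T = WG n S T := by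
  unfold WWAe WG
  refine Finset.sum_congr rfl fun a _ => Finset.sum_congr rfl fun a' _ => ?_
  rw [← Finset.mul_prod_erase _ _ h.mem2]
  congr 1
  exact Finset.prod_congr rfl fun q hq => (if_neg (Finset.ne_of_mem_erase hq)).symm

theorem term_eq {c S T : ℕ} (hS : S ≠ 0) (hT : T ≠ 0)
    (hST : S + T = c * n) {a a' : ℕ} (ha : a ∣ S) (ha' : a' ∣ T) :
    (if ¬ 3 ∣ a then (if 5 ∣ a' ∧ ¬ 3 ∣ a' then
      ∏ p ∈ n.primeFactors, pq n p a a' (S / a) (T / a') else 0) else 0) =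
      ∏ l ∈ QQ n S T, Wl n S T l (a.factorization l) (a'.factorization l) := by
  classical
  have a0 : a ≠ 0 := by rintro rfl; exact hS (zero_dvd_iff.1 ha)
  have b0 : a' ≠ 0 := by rintro rfl; exact hT (zero_dvd_iff.1 ha')
  have hsa : a.primeFactors ⊆ QQ n S T :=
    (Nat.primeFactors_mono (ha.mul_right T) (mul_ne_zero hS hT)).trans pf_QQ
  have hsb : a'.primeFactors ⊆ QQ n S T :=
    (Nat.primeFactors_mono (ha'.mul_left S) (mul_ne_zero hS hT)).trans pf_QQ
  unfold Wl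
  rw [Finset.prod_mul_distrib, Finset.prod_mul_distrib, Finset.prod_mul_distrib]
  have e1 : ∏ l ∈ QQ n S T, Ps n l ^ (a.factorization l + a'.factorization l) =
      Ps n a * Ps n a' := by
    rw [Ps_fac n (QQ n S T) a a0 hsa, Ps_fac n (QQ n S T) a' b0 hsb,
      ← Finset.prod_mul_distrib]
    exact Finset.prod_congr rfl fun l _ => pow_add _ _ _
  have e2 : ∏ l ∈ QQ n S T, (if l ∈ n.primeFactors then
      wq n S T l (a.factorization l) (a'.factorization l) else 1) =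
      ∏ l ∈ n.primeFactors, wq n S T l (a.factorization l) (a'.factorization l) := by
    rw [Finset.prod_ite_mem, Finset.inter_eq_right.2 sub_QQ]
  have z3 : ∀ {x : ℕ}, x ≠ 0 → (x.factorization 3 = 0 ↔ ¬ 3 ∣ x) := by
    intro x hx
    rw [dvd_fac Nat.prime_three hx]
    omega
  have e3 : ∏ l ∈ QQ n S T, (if l = 3 then
      (if a.factorization l = 0 ∧ a'.factorization l = 0 then (1 : ℤ) else 0) else 1) =
      if ¬ 3 ∣ a ∧ ¬ 3 ∣ a' then 1 else 0 := by
    rw [Finset.prod_ite_eq' (QQ n S T) 3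
      (fun l => if a.factorization l = 0 ∧ a'.factorization l = 0 then (1 : ℤ) else 0),
      if_pos mem_QQ3]
    simp only [z3 a0, z3 b0]
  have e4 : ∏ l ∈ QQ n S T, (if l = 5 then (if 1 ≤ a'.factorization l then (1 : ℤ) else 0) else 1) =
      if 5 ∣ a' then 1 else 0 := by
    rw [Finset.prod_ite_eq' (QQ n S T) 5 (fun l => if 1 ≤ a'.factorization l then (1 : ℤ) else 0),
      if_pos mem_QQ5]
    simp only [dvd_fac (by norm_num : Nat.Prime 5) b0]
  rw [e1, e2, e3, e4]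
  have e5 : ∏ p ∈ n.primeFactors, pq n p a a' (S / a) (T / a') =
      Ps n a * Ps n a' *
        ∏ l ∈ n.primeFactors, wq n S T l (a.factorization l) (a'.factorization l) := by
    unfold Ps
    rw [← Finset.prod_mul_distrib, ← Finset.prod_mul_distrib]
    exact Finset.prod_congr rfl fun p hp => pq_eq (pf_prime hp) hS hT
      (dvd_iff' hST hp) ha ha'
  rw [e5]
  by_cases h1 : 3 ∣ a <;> by_cases h2 : 5 ∣ a' <;> by_cases h3 : 3 ∣ a' <;> simp [h1, h2, h3]

/-- the sum of the local weights -/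
def Ls (n S T l : ℕ) : ℤ :=
  ∑ i ∈ range (S.factorization l + 1), ∑ j ∈ range (T.factorization l + 1), Wl n S T l i j

theorem WG_eq {c S T : ℕ} (hS : S ≠ 0) (hT : T ≠ 0) (hST : S + T = c * n) :
    WG n S T = ∏ l ∈ QQ n S T, Ls n S T l := by
  unfold Ls
  rw [← sum_local (Wl n S T) (QQ n S T) QQ_prime S T hS hT
    (fun l hl hd => pf_QQ (Nat.mem_primeFactors.2 ⟨hl, hd.mul_right T, mul_ne_zero hS hT⟩))
    (fun l hl hd => pf_QQ (Nat.mem_primeFactors.2 ⟨hl, hd.mul_left S, mul_ne_zero hS hT⟩))]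
  unfold WG
  rw [Finset.sum_filter]
  refine Finset.sum_congr rfl fun a ha => ?_
  rw [Finset.sum_filter]
  have ha1 := Nat.dvd_of_mem_divisors ha
  have h1 : ∀ a' ∈ T.divisors, ∏ l ∈ QQ n S T, Wl n S T l (a.factorization l) (a'.factorization l) =
      (if ¬ 3 ∣ a then (if 5 ∣ a' ∧ ¬ 3 ∣ a' then
      ∏ p ∈ n.primeFactors, pq n p a a' (S / a) (T / a') else 0) else 0) :=
    fun a' ha' => (term_eq hS hT hST ha1 (Nat.dvd_of_mem_divisors ha')).symm
  rw [Finset.sum_congr rfl h1]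
  by_cases h2 : 3 ∣ a
  · simp only [h2, not_true_eq_false, if_false, Finset.sum_const_zero]
  · simp only [h2, not_false_eq_true, if_true]

/-! ### the local factors -/

theorem hh_eq (h : G n) {D l : ℕ} (hl : l ∈ n.primeFactors.erase 2) :
    hh n D l = ZMod.χ₄ l * (chp l n) ^ D.factorization l * chp l D := by
  have hp := pf_prime (Finset.mem_of_mem_erase hl)
  have hodd := podd hl
  have hsq : chp l n * chp l n = 1 := chp_sq hp h.n0
  have e1 : jacobiSym ((n / l : ℕ) : ℤ) l = chp l n := by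
    unfold chp
    rw [h.fac1 l hl, pow_one]
  unfold hh
  rw [jacobiSym.neg _ hodd, jacobiSym.neg _ hodd, Nat.cast_mul, jacobiSym.mul_left, e1]
  have e2 : jacobiSym ((D / l ^ D.factorization l : ℕ) : ℤ) l = chp l D := rfl
  rw [e2]
  split_ifs with h
  · obtain ⟨k, hk⟩ := h
    rw [hk, ← two_mul, pow_mul, sq, hsq, one_pow]
    ring
  · rw [Nat.not_even_iff_odd] at h
    obtain ⟨k, hk⟩ := h
    rw [hk, pow_succ, pow_mul, sq, hsq, one_pow]
    ring

theorem mem_er (h : G n) {l : ℕ} (hl : l.Prime) (h2 : l ≠ 2) (hd : l ∣ n) :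
    l ∈ n.primeFactors.erase 2 := Finset.mem_erase.2 ⟨h2, (h.mem hl).2 hd⟩

theorem hh_four (h : G n) {D l : ℕ} (hD : D ≠ 0) (hl : l ∈ n.primeFactors.erase 2) :
    hh n (4 * D) l = hh n D l := by
  have hp := pf_prime (Finset.mem_of_mem_erase hl)
  rw [hh_eq h hl, hh_eq h hl, fac4 hD hp (Finset.ne_of_mem_erase hl), chp4 hp]

theorem fac_four (h : G n) {D l : ℕ} (hD : D ≠ 0) (hl : l.Prime) (h2 : l ≠ 2) :
    fac n (4 * D) l = fac n D l := by
  unfold fac
  split_ifs with h1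
  · rw [hh_four h hD (mem_er h hl h2 h1)]
  · rw [fac4 hD hl h2]

/-- the symbol is the product of the two signs -/
theorem hh_ST (h : G n) {S T l : ℕ} (hS : S ≠ 0) (hT : T ≠ 0) (hl : l ∈ n.primeFactors.erase 2) :
    hh n (S * T) l = eS n S l * eT n T l := by
  have h2 := Finset.ne_of_mem_erase hl
  unfold eS eT kq
  rw [hh_eq h hl, ← h.Ps_p l hl, fac_ST hS hT, chp_mul, if_neg h2, cq_odd h2, cq_odd h2, pow_add]
  ring

theorem facg_eq (h : G n) {S T l : ℕ} (hS : S ≠ 0) (hT : T ≠ 0)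
    (hp : l.Prime) (h2 : l ≠ 2) (hl : l ∉ n.primeFactors) : fac n (S * T) l =
      ∑ j ∈ range (S.factorization l + T.factorization l + 1), Ps n l ^ j := by
  unfold fac
  rw [if_neg (fun h1 => hl ((h.mem hp).2 h1)), fac_ST hS hT, h.Ps_l l hp h2 hl]

/-! ### the local sums -/

/-- the sign or one -/
def eT' (n T l : ℕ) : ℤ := if l ∈ n.primeFactors then eT n T l else 1

/-- the local sum at a prime of `n` -/
theorem Ls_pf {c S T : ℕ} (hS : S ≠ 0) (hT : T ≠ 0)
    (hST : S + T = c * n) {p : ℕ} (hp : p ∈ n.primeFactors) (h3 : p ≠ 3) (h5 : p ≠ 5) :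
    Ls n S T p = if p ∣ T then eS n S p + eT n T p else eT n T p := by
  have hd := dvd_iff' hST hp
  have hpp := pf_prime hp
  unfold Ls Wl wq
  simp only [if_pos hp, if_neg h3, if_neg h5, mul_one]
  by_cases h1 : p ∣ T
  · simp only [if_pos h1]
    have s1 := (dvd_fac hpp hS).1 (hd.2 h1)
    have t1 := (dvd_fac hpp hT).1 h1
    rw [two_pt (S.factorization p) (T.factorization p) (S.factorization p) 0 0 (T.factorization p)
      le_rfl (Nat.zero_le _) (Nat.zero_le _) le_rfl (Or.inl (by omega)) (cq n p S)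
      (kq n p * cq n p T) (fun i j => Ps n p ^ (i + j))]
    simp only [add_zero, zero_add]
    rfl
  · simp only [if_neg h1]
    unfold eT
    rw [Nat.factorization_eq_zero_of_not_dvd h1, Nat.factorization_eq_zero_of_not_dvd (fun h2 => h1 (hd.1 h2))]
    simp only [zero_add, Finset.sum_range_one, pow_zero, one_mul]

theorem Ls_three {c S T : ℕ} (hST : S + T = c * n) (hc : 3 ∣ n → ¬ 3 ∣ T) :
    Ls n S T 3 = eT' n T 3 := by
  unfold Ls eT'
  by_cases h3 : 3 ∈ n.primeFactors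
  · have hT3 := hc (pf_dvd h3)
    have hS3 : ¬ 3 ∣ S := fun h1 => hT3 ((dvd_iff' hST h3).1 h1)
    rw [Nat.factorization_eq_zero_of_not_dvd hT3, Nat.factorization_eq_zero_of_not_dvd hS3, zero_add,
      Finset.sum_range_one, Finset.sum_range_one]
    unfold Wl wq eT
    rw [if_pos h3, if_pos rfl, if_neg (by norm_num : (3 : ℕ) ≠ 5),
      if_pos (⟨rfl, rfl⟩ : (0 : ℕ) = 0 ∧ (0 : ℕ) = 0), if_neg hT3,
      if_pos h3, Nat.factorization_eq_zero_of_not_dvd hT3]
    ring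
  · rw [if_neg h3]
    have e : ∀ i ∈ range (S.factorization 3 + 1), ∀ j ∈ range (T.factorization 3 + 1),
        Wl n S T 3 i j = if i = 0 then (if j = 0 then 1 else 0) else 0 := by
      intro i _ j _
      unfold Wl
      rw [if_neg h3, if_pos rfl, if_neg (by norm_num : (3 : ℕ) ≠ 5)]
      by_cases hi : i = 0 <;> by_cases hj : j = 0 <;> simp [hi, hj]
    rw [Finset.sum_congr rfl fun i hi => Finset.sum_congr rfl fun j hj => e i hi j hj]
    simp only [Finset.sum_ite_irrel, Finset.sum_const_zero, Finset.sum_ite_eq', Finset.mem_range,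
      if_true, Nat.lt_succ_iff, Nat.zero_le]

/-- the local factor at `5` apart from the sign -/
def L5 (n T : ℕ) : ℤ :=
  if 5 ∈ n.primeFactors then 1 else (if Odd (T.factorization 5) then -1 else 0)

theorem Ls_five (h : G n) {c S T : ℕ} (hS : S ≠ 0) (hT : T ≠ 0) (hST : S + T = c * n)
    (hc : c = 1 ∨ c = 2) (hT5 : 5 ∣ T) :
    Ls n S T 5 = L5 n T * eT' n T 5 := by
  have p5 : Nat.Prime 5 := by norm_num
  unfold L5 eT'
  by_cases h5 : 5 ∈ n.primeFactors
  · rw [if_pos h5, if_pos h5, one_mul]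
    have hS5 : 5 ∣ S := (dvd_iff' hST h5).2 hT5
    have s1 := (dvd_fac p5 hS).1 hS5
    have t1 := (dvd_fac p5 hT).1 hT5
    unfold Ls
    have e : ∀ i ∈ range (S.factorization 5 + 1), ∀ j ∈ range (T.factorization 5 + 1),
        Wl n S T 5 i j = Ps n 5 ^ (i + j) * (if i = S.factorization 5 ∧ j = 0 then 0
          else if i = 0 ∧ j = T.factorization 5 then kq n 5 * cq n 5 T else 0) := by
      intro i _ j _
      unfold Wl wq
      rw [if_pos h5, if_neg (by norm_num : (5 : ℕ) ≠ 3), if_pos rfl, if_pos hT5]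
      by_cases hj : 1 ≤ j
      · have hn : ¬ (i = S.factorization 5 ∧ j = 0) := by omega
        simp only [if_neg hn, if_pos hj]
        ring
      · have hn : ¬ (i = 0 ∧ j = T.factorization 5) := by omega
        simp only [if_neg hn, if_neg hj]
        split_ifs <;> ring
    rw [Finset.sum_congr rfl fun i hi => Finset.sum_congr rfl fun j hj => e i hi j hj,
      two_pt (S.factorization 5) (T.factorization 5) (S.factorization 5) 0 0 (T.factorization 5)
      le_rfl (Nat.zero_le _) (Nat.zero_le _) le_rfl (Or.inl (by omega)) 0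
      (kq n 5 * cq n 5 T) (fun i j => Ps n 5 ^ (i + j))]
    unfold eT
    simp only [add_zero, zero_add, mul_zero]
  · rw [if_neg h5, if_neg h5, mul_one]
    have hS5 : ¬ 5 ∣ S := by
      intro h1
      exact h5 ((h.mem p5).2 (dvd_cn hc p5 (by norm_num) (hST ▸ dvd_add h1 hT5)))
    unfold Ls
    rw [Nat.factorization_eq_zero_of_not_dvd hS5, zero_add, Finset.sum_range_one, ← alt_sum]
    refine Finset.sum_congr rfl fun j _ => ?_
    unfold Wl
    rw [if_neg h5, if_pos rfl, if_neg (by norm_num : (5 : ℕ) ≠ 3), h.Ps_five h5, zero_add]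
    ring

/-- the local factor at `2` apart from the sign -/
def L2 (n S T : ℕ) : ℤ :=
  if 2 ∈ n.primeFactors then (if 2 ∣ T then 1 + eS n S 2 * eT n T 2 else 1)
  else (∑ i ∈ range (S.factorization 2 + 1), Ps n 2 ^ i) *
      ∑ j ∈ range (T.factorization 2 + 1), Ps n 2 ^ j

theorem Ls_two {c S T : ℕ} (hS : S ≠ 0) (hT : T ≠ 0) (hST : S + T = c * n) :
    Ls n S T 2 = L2 n S T * eT' n T 2 := by
  unfold L2 eT'
  by_cases h2 : 2 ∈ n.primeFactors
  · rw [if_pos h2, if_pos h2, Ls_pf hS hT hST h2 (by norm_num) (by norm_num)]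
    have c1 := eT_sq (n := n) Nat.prime_two hT
    split_ifs
    · linear_combination (-(eS n S 2)) * c1
    · ring
  · rw [if_neg h2, if_neg h2, mul_one]
    unfold Ls Wl
    rw [Finset.sum_mul_sum]
    refine Finset.sum_congr rfl fun i _ => Finset.sum_congr rfl fun j _ => ?_
    rw [if_neg h2, if_neg (by norm_num), if_neg (by norm_num), pow_add]
    ring

theorem one_zero (h : G n) {c S T : ℕ} (hc : c = 1 ∨ c = 2) (hS : S ≠ 0) (hT : T ≠ 0)
    (hST : S + T = c * n) {l : ℕ} (hp : l.Prime) (h2 : l ≠ 2) (hl : l ∉ n.primeFactors) :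
    S.factorization l = 0 ∨ T.factorization l = 0 := by
  by_contra h0
  push Not at h0
  have h1 := (dvd_fac hp hS).2 (by omega)
  have h3 := (dvd_fac hp hT).2 (by omega)
  exact hl ((h.mem hp).2 (dvd_cn hc hp h2 (hST ▸ dvd_add h1 h3)))

theorem Ls_gen (h : G n) {c S T : ℕ} (hc : c = 1 ∨ c = 2) (hS : S ≠ 0) (hT : T ≠ 0)
    (hST : S + T = c * n) {l : ℕ} (hp : l.Prime) (h2 : l ≠ 2) (h3 : l ≠ 3) (h5 : l ≠ 5)
    (hl : l ∉ n.primeFactors) :
    Ls n S T l = fac n (S * T) l := by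
  rw [facg_eq h hS hT hp h2 hl]
  unfold Ls Wl
  simp only [if_neg hl, if_neg h3, if_neg h5, mul_one]
  rcases one_zero h hc hS hT hST hp h2 hl with h0 | h0
  · rw [h0, zero_add, Finset.sum_range_one, zero_add]
    exact Finset.sum_congr rfl fun j _ => by rw [zero_add]
  · rw [h0, zero_add, add_zero]
    exact Finset.sum_congr rfl fun i _ => by rw [Finset.sum_range_one, add_zero]

/-- the local sum at an odd prime of `n` -/
theorem Ls_p (h : G n) {c S T : ℕ} (hS : S ≠ 0) (hT : T ≠ 0)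
    (hST : S + T = c * n) {p : ℕ} (hp : p ∈ n.primeFactors.erase 2) (h3 : p ≠ 3) (h5 : p ≠ 5) :
    Ls n S T p = eT n T p * (if p ∣ T then fac n (S * T) p else 1) := by
  have hp' := Finset.mem_of_mem_erase hp
  have hpp := pf_prime hp'
  rw [Ls_pf hS hT hST hp' h3 h5]
  by_cases h1 : p ∣ T
  · rw [if_pos h1, if_pos h1]
    unfold fac
    rw [if_pos (pf_dvd hp'), hh_ST h hS hT hp]
    have c1 := eT_sq (n := n) hpp hT
    linear_combination (-(eS n S p)) * c1
  · rw [if_neg h1, if_neg h1, mul_one]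

/-- the local sums away from `2`, `3` and `5` -/
theorem Ls_Q' (h : G n) {c S T : ℕ} (hc : c = 1 ∨ c = 2) (hS : S ≠ 0) (hT : T ≠ 0)
    (hST : S + T = c * n) {l : ℕ} (hl : l ∈ Q' n S T) :
    Ls n S T l = eT' n T l * Ff n S T l := by
  obtain ⟨hp, h2, h3, h5, hm⟩ := mem_Q' hl
  have hD := mem_ST hS hT hp
  unfold eT'
  by_cases hlP : l ∈ n.primeFactors
  · have hlP' : l ∈ n.primeFactors.erase 2 := Finset.mem_erase.2 ⟨h2, hlP⟩
    have hd := dvd_iff' hST hlP
    have hD' : l ∈ (S * T).primeFactors ↔ l ∣ T := by rw [hD, hd, or_self]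
    rw [if_pos hlP, Ls_p h hS hT hST hlP' h3 h5]
    unfold Ff
    simp only [hD']
  · rw [if_neg hlP, one_mul, Ls_gen h hc hS hT hST hp h2 h3 h5 hlP]
    unfold Ff
    rw [if_pos (hm hlP)]

/-- the product form -/
theorem WG_val (h : G n) {c S T : ℕ} (hc : c = 1 ∨ c = 2) (hS : S ≠ 0) (hT : T ≠ 0)
    (hST : S + T = c * n) (h3 : 3 ∣ n → ¬ 3 ∣ T) (hT5 : 5 ∣ T) :
    WG n S T = L2 n S T * L5 n T * (∏ l ∈ n.primeFactors, eT n T l) * ∏ l ∈ Q' n S T, Ff n S T l := by
  classical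
  rw [WG_eq hS hT hST, split_QQ, Ls_two hS hT hST, Ls_three hST h3, Ls_five h hS hT hST hc hT5,
    Finset.prod_congr rfl fun l (hl : l ∈ Q' n S T) => Ls_Q' h hc hS hT hST hl,
    Finset.prod_mul_distrib]
  have e1 : ∏ l ∈ n.primeFactors, eT n T l = ∏ l ∈ QQ n S T, eT' n T l := by
    unfold eT'
    rw [Finset.prod_ite_mem, Finset.inter_eq_right.2 sub_QQ]
  rw [e1, split_QQ]
  ring

end Pool.Agent.N295.TP
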